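import Mathlib

set_option autoImplicit false

namespace Pool.Agent.R840.SR

open MvPolynomial

/-- The monomial `x ^ α` evaluated at `u`. -/
noncomputable def mon {n : ℕ} (u : Fin n → ℂ) (α : Fin n →₀ ℕ) : ℂ := ∏ i, u i ^ α i

/-- There is a sequence of real points `u_j` such that, for every `Λ ⊆ Ω`, the monomials with
exponents in `Λ` are linearly independent on the first `|Λ|` of the points. -/
theorem exists_points {n : ℕ} (Ω : Finset (Fin n →₀ ℕ)) :
    ∃ u : ℕ → Fin n → ℝ, ∀ Λ ⊆ Ω, ∀ c : (Fin n →₀ ℕ) → ℂ,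
      (∀ j < Λ.card, ∑ α ∈ Λ, c α * mon (fun i => (u j i : ℂ)) α = 0) → ∀ α ∈ Λ, c α = 0 := by
  classical
  -- a point at which the monomials take distinct values
  obtain ⟨p, hp⟩ : ∃ p : Fin n → ℝ, ∀ α ∈ Ω, ∀ β ∈ Ω, α ≠ β →
      (∏ i, p i ^ α i) ≠ ∏ i, p i ^ β i := by
    let q : MvPolynomial (Fin n) ℝ := ∏ x ∈ (Ω ×ˢ Ω).filter (fun x => x.1 ≠ x.2),
      (monomial x.1 1 - monomial x.2 1)
    have hq : q ≠ 0 := by
      rw [Finset.prod_ne_zero_iff]
      intro x hx h
      rw [Finset.mem_filter] at hx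
      have := sub_eq_zero.1 h
      exact hx.2 (monomial_left_injective (one_ne_zero (α := ℝ)) this)
    obtain ⟨p, hp⟩ : ∃ p : Fin n → ℝ, eval p q ≠ 0 := by
      by_contra hcon
      push Not at hcon
      exact hq (MvPolynomial.funext fun x => by simpa using hcon x)
    refine ⟨p, fun α hα β hβ hne h => hp ?_⟩
    rw [map_prod]
    refine Finset.prod_eq_zero (i := (α, β)) ?_ ?_
    · simp [hα, hβ, hne]
    · simp [eval_monomial, Finsupp.prod_fintype, h]
  refine ⟨fun j i => p i ^ j, fun Λ hΛ c hc => ?_⟩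
  -- Vandermonde
  let e := Λ.equivFin
  let f : Fin Λ.card → ℂ := fun a => ((∏ i, p i ^ ((e.symm a : Λ) : Fin n →₀ ℕ) i : ℝ) : ℂ)
  have hf : Function.Injective f := by
    intro a b hab
    have h1 : (∏ i, p i ^ ((e.symm a : Λ) : Fin n →₀ ℕ) i : ℝ) =
        ∏ i, p i ^ ((e.symm b : Λ) : Fin n →₀ ℕ) i := Complex.ofReal_injective hab
    by_contra hne
    refine hp _ (hΛ (e.symm a).2) _ (hΛ (e.symm b).2) ?_ h1
    intro h
    exact hne (e.symm.injective (Subtype.ext h))
  have hv := Matrix.eq_zero_of_forall_pow_sum_mul_pow_eq_zero (f := f)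
    (v := fun a => c (e.symm a : Λ)) hf ?_
  · intro α hα
    have := congrFun hv (e ⟨α, hα⟩)
    simpa using this
  · intro j
    have := hc j j.2
    rw [← this, ← Finset.sum_coe_sort Λ]
    refine (Fintype.sum_equiv e _ _ fun α => ?_).symm
    simp only [f, mon, Equiv.symm_apply_apply]
    congr 1
    push_cast
    rw [← Finset.prod_pow]
    refine Finset.prod_congr rfl fun i _ => ?_
    rw [← pow_mul, ← pow_mul, mul_comm]

end Pool.Agent.R840.SR
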