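import Pool.Agent.R840.SR.A

set_option autoImplicit false

namespace Pool.Agent.R840.SR

open MvPolynomial

/-- The linear form with coefficient vector `A`. -/
noncomputable def lin {m : ℕ} (A : Fin m → ℂ) : MvPolynomial (Fin m) ℂ := ∑ i, A i • X i

theorem lin_hom {m : ℕ} (A : Fin m → ℂ) : (lin A).IsHomogeneous 1 := by
  unfold lin
  refine IsHomogeneous.sum _ _ _ fun i _ => ?_
  rw [smul_eq_C_mul]
  simpa using (isHomogeneous_C (Fin m) (A i)).mul (isHomogeneous_X ℂ i)

theorem exists_lin {m : ℕ} (l : MvPolynomial (Fin m) ℂ) (hl : l.IsHomogeneous 1) :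
    ∃ A, l = lin A := by
  have h : l ∈ homogeneousSubmodule (Fin m) ℂ 1 := hl
  rw [homogeneousSubmodule_one_eq_span_X, Submodule.mem_span_range_iff_exists_fun] at h
  obtain ⟨A, hA⟩ := h
  exact ⟨A, hA.symm⟩

theorem pairing {m d : ℕ} {ι κ : Type} [Fintype ι] [Fintype κ] (μ : ι → ℂ)
    (A : ι → Fin m → ℂ) (ν : κ → ℂ) (B : κ → Fin m → ℂ)
    (h : ∑ i, μ i • lin (A i) ^ d = ∑ j, ν j • lin (B j) ^ d)
    (P : MvPolynomial (Fin m) ℂ) (hP : P.IsHomogeneous d) :
    ∑ i, μ i * eval (A i) P = ∑ j, ν j * eval (B j) P := by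
  have key : ∀ e ∈ P.support, ∑ i, μ i * ∏ a, A i a ^ e a = ∑ j, ν j * ∏ a, B j a ^ e a := by
    intro e he
    have hd : e.sum (fun _ m => m) = d := by
      have := hP (mem_support_iff.1 he)
      simpa [Finsupp.weight_apply] using this
    have h1 := congrArg (coeff e) h
    simp only [coeff_sum, coeff_smul, lin, coeff_linearCombination_X_pow_of_fintype, hd,
      if_true, smul_eq_mul, Finsupp.prod_fintype, pow_zero, implies_true] at h1
    have hm : (e.multinomial : ℂ) ≠ 0 := by
      have : 0 < e.multinomial := by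
        rw [Finsupp.multinomial_eq]
        exact Nat.multinomial_pos _ _
      exact_mod_cast this.ne'
    apply mul_left_cancel₀ hm
    rw [Finset.mul_sum, Finset.mul_sum]
    calc _ = ∑ i, μ i * (e.multinomial * ∏ a, A i a ^ e a) :=
          Finset.sum_congr rfl fun i _ => by ring
      _ = _ := h1
      _ = _ := Finset.sum_congr rfl fun i _ => by ring
  simp only [eval_eq', Finset.mul_sum]
  rw [Finset.sum_comm, Finset.sum_comm (s := Finset.univ (α := κ))]
  refine Finset.sum_congr rfl fun e he => ?_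
  calc _ = coeff e P * ∑ i, μ i * ∏ a, A i a ^ e a := by
        rw [Finset.mul_sum]; exact Finset.sum_congr rfl fun i _ => by ring
    _ = coeff e P * ∑ j, ν j * ∏ a, B j a ^ e a := by rw [key e he]
    _ = _ := by rw [Finset.mul_sum]; exact Finset.sum_congr rfl fun i _ => by ring

theorem exists_relation {ι κ : Type*} [DecidableEq ι] [Fintype κ] (I : Finset ι)
    (hs : Fintype.card κ < I.card) (g : κ → ι → ℂ) :
    ∃ c : ι → ℂ, (∀ x, x ∉ I → c x = 0) ∧ (∃ x, c x ≠ 0) ∧ ∀ i, ∑ x ∈ I, c x * g i x = 0 := by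
  classical
  let L : (I → ℂ) →ₗ[ℂ] (κ → ℂ) :=
    LinearMap.pi fun i => ∑ x : I, (g i x) • LinearMap.proj x
  have hk : LinearMap.ker L ≠ ⊥ := LinearMap.ker_ne_bot_of_finrank_lt (by simpa using hs)
  obtain ⟨y, hy, hy0⟩ := Submodule.exists_mem_ne_zero_of_ne_bot hk
  refine ⟨fun x => if h : x ∈ I then y ⟨x, h⟩ else 0, fun x hx => dif_neg hx, ?_, fun i => ?_⟩
  · obtain ⟨x, hx⟩ := Function.ne_iff.1 hy0
    exact ⟨x, by simpa using hx⟩
  · have := congrFun (LinearMap.mem_ker.1 hy) i
    rw [← Finset.sum_coe_sort I]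
    simpa [L, mul_comm] using this

/-- The coefficient vector `(0, 1, u)`. -/
def vec {n : ℕ} (u : Fin n → ℂ) : Fin (n + 2) → ℂ := Fin.cons 0 (Fin.cons 1 u)

/-- The monomial `x ^ α` in the last `n` variables. -/
noncomputable def xmon {n : ℕ} (α : Fin n →₀ ℕ) : MvPolynomial (Fin (n + 2)) ℂ :=
  ∏ i, X i.succ.succ ^ α i

theorem xmon_hom {n : ℕ} (α : Fin n →₀ ℕ) : (xmon α).IsHomogeneous (∑ i, α i) := by
  unfold xmon
  exact IsHomogeneous.prod _ _ _ fun i _ => isHomogeneous_X_pow _ _

theorem eval_xmon {n : ℕ} (A : Fin (n + 2) → ℂ) (α : Fin n →₀ ℕ) :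
    eval A (xmon α) = mon (fun i => A i.succ.succ) α := by
  simp [xmon, mon]

theorem pderiv_lin {m : ℕ} (A : Fin (m + 1) → ℂ) : pderiv 0 (lin A) = C (A 0) := by
  classical
  unfold lin
  rw [map_sum, Finset.sum_eq_single 0]
  · simp [smul_eq_C_mul]
  · intro i _ hi
    simp [pderiv_X_of_ne hi]
  · simp

/-- The linear form with coefficient vector `(0, 1, u)`. -/
theorem vec_zero {n : ℕ} (u : Fin n → ℂ) : vec u 0 = 0 := rfl

theorem vec_one {n : ℕ} (u : Fin n → ℂ) : vec u 1 = 1 := rfl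

theorem vec_succ {n : ℕ} (u : Fin n → ℂ) (i : Fin n) : vec u i.succ.succ = u i := rfl

/-- Setting `X 0 = 0`. -/
noncomputable def kill (m : ℕ) : MvPolynomial (Fin (m + 1)) ℂ →ₐ[ℂ] MvPolynomial (Fin (m + 1)) ℂ :=
  aeval fun i => if i = 0 then 0 else X i

theorem kill_lin {m : ℕ} (A : Fin (m + 1) → ℂ) :
    kill m (lin A) = lin (fun i => if i = 0 then 0 else A i) := by
  unfold kill lin
  rw [map_sum]
  refine Finset.sum_congr rfl fun i _ => ?_
  rw [map_smul, aeval_X]
  by_cases hi : i = 0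
  · simp [hi]
  · simp [hi]

/-- The lower bound for the number of summands in a power sum decomposition of
`X 0 * G + H`. -/
theorem lower {n d s q N : ℕ} (Λ Ω : Finset (Fin n →₀ ℕ)) (hΛ : Λ ⊆ Ω)
    (hΩ : ∀ α ∈ Ω, ∑ i, α i ≤ N) (hN : 2 * N ≤ d + 1) (hN1 : 1 ≤ N)
    (hcard : Ω.card = Λ.card + q) (u : ℕ → Fin n → ℝ)
    (hu : ∀ Λ ⊆ Ω, ∀ c : (Fin n →₀ ℕ) → ℂ,
      (∀ j < Λ.card, ∑ α ∈ Λ, c α * mon (fun i => (u j i : ℂ)) α = 0) → ∀ α ∈ Λ, c α = 0)
    (c : Fin s → ℂ) (A : Fin s → Fin (n + 2) → ℂ)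
    (h : X 0 * ∑ j : Fin Λ.card, lin (vec fun i => (u j i : ℂ)) ^ d +
      ∑ j : Fin q, lin (vec fun i => (u (Λ.card + j) i : ℂ)) ^ (d + 1) =
        ∑ i, C (c i) * lin (A i) ^ (d + 1)) :
    ∑ α ∈ Λ, (d + 1 - 2 * ∑ i, α i) + q ≤ s := by
  classical
  by_contra hcon
  push Not at hcon
  have hNd : N ≤ d := by omega
  -- the derivative
  have h1 : ∑ i, (c i * (d + 1) * A i 0) • lin (A i) ^ d =
      ∑ j : Fin Λ.card, (1 : ℂ) • lin (vec fun i => (u j i : ℂ)) ^ d := by
    have h2 := congrArg (pderiv 0) h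
    rw [map_add, Derivation.leibniz, map_sum, map_sum, map_sum] at h2
    have h3 : ∀ (j e : ℕ), pderiv 0 (lin (vec fun i => (u j i : ℂ)) ^ e) = 0 := by
      intro j e
      rw [Derivation.leibniz_pow, pderiv_lin]
      simp [vec]
    have h4 : ∀ i, pderiv 0 (C (c i) * lin (A i) ^ (d + 1)) =
        (c i * (d + 1) * A i 0) • lin (A i) ^ d := by
      intro i
      rw [Derivation.leibniz, Derivation.leibniz_pow, pderiv_lin]
      simp only [smul_eq_C_mul, map_mul, map_add, map_one, map_natCast, smul_eq_mul,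
        Nat.add_sub_cancel, nsmul_eq_mul, Nat.cast_add, Nat.cast_one, pderiv_C, mul_zero, add_zero]
      ring
    simp only [h3, h4, Finset.sum_const_zero, pderiv_X_self, smul_eq_mul, mul_one, mul_zero,
      zero_add, add_zero] at h2
    rw [← h2]
    simp
  have hpair := pairing _ _ _ _ h1
  -- the restriction to `X 0 = 0`
  have h1' : ∑ i, c i • lin (fun a => if a = 0 then 0 else A i a) ^ (d + 1) =
      ∑ j : Fin q, (1 : ℂ) • lin (vec fun i => (u (Λ.card + j) i : ℂ)) ^ (d + 1) := by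
    have h2 := congrArg (kill (n + 1)) h
    rw [map_add, map_mul, map_sum, map_sum, map_sum] at h2
    have h3 : kill (n + 1) (X 0) = 0 := by simp [kill]
    have h4 : ∀ j : ℕ, kill (n + 1) (lin (vec fun i => (u j i : ℂ)) ^ (d + 1)) =
        lin (vec fun i => (u j i : ℂ)) ^ (d + 1) := by
      intro j
      rw [map_pow, kill_lin]
      congr 2
      funext a
      by_cases ha : a = 0
      · rw [if_pos ha, ha, vec_zero]
      · rw [if_neg ha]
    have h5 : ∀ i, kill (n + 1) (C (c i) * lin (A i) ^ (d + 1)) =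
        c i • lin (fun a => if a = 0 then 0 else A i a) ^ (d + 1) := by
      intro i
      rw [map_mul, map_pow, kill_lin, smul_eq_C_mul]
      congr 1
      simp [kill]
    simp only [h3, h4, h5, zero_mul, zero_add] at h2
    rw [← h2]
    simp
  have hpair' := pairing _ _ _ _ h1'
  -- the relation
  let I : Finset (Σ _ : (Fin n →₀ ℕ), ℕ) :=
    Λ.sigma fun α => Finset.Icc (∑ i, α i) (d - ∑ i, α i)
  have hI : I.card = ∑ α ∈ Λ, (d + 1 - 2 * ∑ i, α i) := by
    rw [Finset.card_sigma]
    refine Finset.sum_congr rfl fun α _ => ?_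
    rw [Nat.card_Icc]
    omega
  let T : Fin s → (Fin n →₀ ℕ) → ℕ → ℂ := fun i α t =>
    A i 1 ^ (t - ∑ i, α i) * mon (fun j => A i j.succ.succ) α
  obtain ⟨w, hw0, hw1, hw2⟩ := exists_relation (κ := Fin s ⊕ Fin Λ.card) (I.disjSum Ω)
    (by rw [Finset.card_disjSum, hI, Fintype.card_sum, Fintype.card_fin, Fintype.card_fin, hcard]
        omega)
    (fun k x => k.elim
      (fun i => x.elim (fun x => if A i 0 = 0 then 0 else A i 0 ^ (d - x.2) * T i x.1 x.2)
        (fun α => (if A i 0 = 0 then 1 else A i 0 ^ (d - N)) * T i α N))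
      (fun j : Fin Λ.card => x.elim (fun _ => 0) (fun α => mon (fun i => (u j i : ℂ)) α)))
  set cc : (Σ _ : (Fin n →₀ ℕ), ℕ) → ℂ := fun x => w (Sum.inl x) with hcc
  set γ : (Fin n →₀ ℕ) → ℂ := fun α => w (Sum.inr α) with hγ
  have hcc0 : ∀ x, x ∉ I → cc x = 0 := fun x hx => hw0 _ (by simpa using hx)
  have hγ0 : ∀ α, α ∉ Ω → γ α = 0 := fun α hα => hw0 _ (by simpa using hα)
  have R1 : ∀ i, A i 0 ≠ 0 → ∑ x ∈ I, cc x * (A i 0 ^ (d - x.2) * T i x.1 x.2) +
      ∑ α ∈ Ω, γ α * (A i 0 ^ (d - N) * T i α N) = 0 := by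
    intro i hi
    have := hw2 (Sum.inl i)
    rw [Finset.sum_disjSum] at this
    simpa only [Sum.elim_inl, Sum.elim_inr, if_neg hi] using this
  have R2 : ∀ i, A i 0 = 0 → ∑ α ∈ Ω, γ α * T i α N = 0 := by
    intro i hi
    have := hw2 (Sum.inl i)
    rw [Finset.sum_disjSum] at this
    simpa only [Sum.elim_inl, Sum.elim_inr, if_pos hi, mul_zero, Finset.sum_const_zero, zero_add,
      one_mul] using this
  have R3 : ∀ j < Λ.card, ∑ α ∈ Ω, γ α * mon (fun i => (u j i : ℂ)) α = 0 := by
    intro j hj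
    have := hw2 (Sum.inr ⟨j, hj⟩)
    rw [Finset.sum_disjSum] at this
    simpa only [Sum.elim_inl, Sum.elim_inr, mul_zero, Finset.sum_const_zero, zero_add] using this
  have hmem : ∀ x, cc x ≠ 0 → x.1 ∈ Λ ∧ (∑ i, x.1 i) ≤ x.2 ∧ x.2 + (∑ i, x.1 i) ≤ d := by
    intro x hx
    have hxI : x ∈ I := by
      by_contra hxI
      exact hx (hcc0 x hxI)
    rw [Finset.mem_sigma, Finset.mem_Icc] at hxI
    refine ⟨hxI.1, hxI.2.1, ?_⟩
    have := hxI.2
    omega
  -- the generic step
  have step : ∀ t : ℕ, t ≤ d → (∀ x, cc x ≠ 0 → x.2 ≤ t) → ((∀ α ∈ Ω, γ α = 0) ∨ N ≤ t) →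
      ∀ α ∈ Λ, cc ⟨α, t⟩ = 0 := by
    intro t htd hmax hor
    let P1 : MvPolynomial (Fin (n + 2)) ℂ := ∑ x ∈ I, C (cc x) *
      (X 0 ^ (t - x.2) * (X 1 ^ (x.2 - ∑ i, x.1 i) * xmon x.1))
    let P2 : MvPolynomial (Fin (n + 2)) ℂ := ∑ α ∈ Ω, C (γ α) *
      (X 0 ^ (t - N) * (X 1 ^ (N - ∑ i, α i) * xmon α))
    let Q : MvPolynomial (Fin (n + 2)) ℂ := ∑ α ∈ Λ, C ((starRingEnd ℂ) (cc ⟨α, t⟩)) *
      (X 1 ^ (d - t - ∑ i, α i) * xmon α)
    have hP1 : P1.IsHomogeneous t := by
      refine IsHomogeneous.sum _ _ _ fun x _ => ?_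
      by_cases hx : cc x = 0
      · rw [hx]; simpa using isHomogeneous_zero _ _ _
      · obtain ⟨_, h6, h7⟩ := hmem x hx
        have h8 := hmax x hx
        have := (isHomogeneous_C (Fin (n + 2)) (cc x)).mul ((isHomogeneous_X_pow (R := ℂ)
          (0 : Fin (n + 2)) (t - x.2)).mul ((isHomogeneous_X_pow (R := ℂ)
          (1 : Fin (n + 2)) (x.2 - ∑ i, x.1 i)).mul (xmon_hom x.1)))
        convert this using 1
        omega
    have hP2 : P2.IsHomogeneous t := by
      refine IsHomogeneous.sum _ _ _ fun α hα => ?_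
      rcases hor with h5 | h5
      · rw [h5 α hα]; simpa using isHomogeneous_zero _ _ _
      · have h6 := hΩ α hα
        have := (isHomogeneous_C (Fin (n + 2)) (γ α)).mul ((isHomogeneous_X_pow (R := ℂ)
          (0 : Fin (n + 2)) (t - N)).mul ((isHomogeneous_X_pow (R := ℂ)
          (1 : Fin (n + 2)) (N - ∑ i, α i)).mul (xmon_hom α)))
        convert this using 1
        omega
    have hQ : Q.IsHomogeneous (d - t) := by
      refine IsHomogeneous.sum _ _ _ fun α _ => ?_
      by_cases hx : cc ⟨α, t⟩ = 0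
      · rw [hx]; simpa using isHomogeneous_zero _ _ _
      · obtain ⟨_, h6, h7⟩ := hmem _ hx
        have := (isHomogeneous_C (Fin (n + 2)) ((starRingEnd ℂ) (cc ⟨α, t⟩))).mul
          ((isHomogeneous_X_pow (R := ℂ) (1 : Fin (n + 2)) (d - t - ∑ i, α i)).mul (xmon_hom α))
        convert this using 1
        simp only at h7
        omega
    have hPQ : ((P1 + P2) * Q).IsHomogeneous d := by
      have := (hP1.add hP2).mul hQ
      rwa [show t + (d - t) = d by omega] at this
    have h9 := hpair ((P1 + P2) * Q) hPQ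
    -- the left-hand side vanishes
    have h10 : ∀ i, c i * (d + 1) * A i 0 * eval (A i) ((P1 + P2) * Q) = 0 := by
      intro i
      by_cases hi : A i 0 = 0
      · rw [hi]; ring
      have h11 : A i 0 ^ (d - t) * eval (A i) (P1 + P2) = 0 := by
        rw [← R1 i hi]
        simp only [P1, P2, map_add, map_sum, map_mul, eval_C, map_pow, eval_X, eval_xmon,
          Finset.mul_sum, mul_add, T]
        congr 1
        · refine Finset.sum_congr rfl fun x _ => ?_
          by_cases hx : cc x = 0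
          · simp [hx]
          · have h8 := hmax x hx
            rw [show d - x.2 = (d - t) + (t - x.2) by omega, pow_add]
            ring
        · refine Finset.sum_congr rfl fun α hα => ?_
          rcases hor with h5 | h5
          · simp [h5 α hα]
          · rw [show d - N = (d - t) + (t - N) by omega, pow_add]
            ring
      have h12 : eval (A i) (P1 + P2) = 0 := by
        rcases mul_eq_zero.1 h11 with h13 | h13
        · exact absurd (eq_zero_of_pow_eq_zero h13) hi
        · exact h13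
      rw [map_mul, h12]
      ring
    rw [Finset.sum_eq_zero fun i _ => h10 i] at h9
    -- the right-hand side is a sum of squares
    have hPB : ∀ j : Fin Λ.card, eval (vec fun i => (u j i : ℂ)) (P1 + P2) =
        ∑ α ∈ Λ, cc ⟨α, t⟩ * mon (fun i => (u j i : ℂ)) α := by
      intro j
      have h5 : eval (vec fun i => (u j i : ℂ)) P2 = 0 := by
        simp only [P2, map_sum, map_mul, eval_C, map_pow, eval_X, eval_xmon, vec_zero, vec_one,
          vec_succ, one_pow, one_mul]
        have := R3 j j.2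
        calc _ = 0 ^ (t - N) * ∑ α ∈ Ω, γ α * mon (fun i => (u j i : ℂ)) α := by
              rw [Finset.mul_sum]
              exact Finset.sum_congr rfl fun α _ => by ring
          _ = 0 := by rw [this, mul_zero]
      rw [map_add, h5, add_zero]
      simp only [P1, I, map_sum, map_mul, eval_C, map_pow, eval_X, eval_xmon, vec_zero, vec_one,
        vec_succ, Finset.sum_sigma, one_pow, one_mul]
      refine Finset.sum_congr rfl fun α hα => ?_
      rw [Finset.sum_eq_single t]
      · simp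
      · intro b _ hb
        by_cases hx : cc ⟨α, b⟩ = 0
        · simp [hx]
        · have h8 := hmax _ hx
          simp only at h8
          rw [zero_pow (by omega)]
          simp
      · intro hb
        have : cc ⟨α, t⟩ = 0 := by
          apply hcc0
          intro hI'
          exact hb (Finset.mem_sigma.1 hI').2
        simp [this]
    have hQB : ∀ j : Fin Λ.card, eval (vec fun i => (u j i : ℂ)) Q =
        (starRingEnd ℂ) (∑ α ∈ Λ, cc ⟨α, t⟩ * mon (fun i => (u j i : ℂ)) α) := by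
      intro j
      simp only [Q, map_sum, map_mul, eval_C, map_pow, eval_X, eval_xmon, vec_one, vec_succ,
        one_pow, one_mul, mon, map_prod, Complex.conj_ofReal]
    have h14 : ∀ j : Fin Λ.card, ∑ α ∈ Λ, cc ⟨α, t⟩ * mon (fun i => (u j i : ℂ)) α = 0 := by
      simp only [map_mul, hPB, hQB, one_mul, Complex.mul_conj] at h9
      have h15 : ∑ j : Fin Λ.card,
          Complex.normSq (∑ α ∈ Λ, cc ⟨α, t⟩ * mon (fun i => (u j i : ℂ)) α) = 0 := by
        exact_mod_cast h9.symm
      rw [Finset.sum_eq_zero_iff_of_nonneg fun j _ => Complex.normSq_nonneg _] at h15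
      intro j
      exact Complex.normSq_eq_zero.1 (h15 j (Finset.mem_univ j))
    exact hu Λ hΛ (fun α => cc ⟨α, t⟩) fun j hj => h14 ⟨j, hj⟩
  -- the components of degree at least `N` vanish
  have s1 : ∀ x, cc x ≠ 0 → x.2 < N := by
    by_contra hneg
    push Not at hneg
    obtain ⟨x, hx, hxN⟩ := hneg
    obtain ⟨x0, hx0, hmax⟩ : ∃ x0 ∈ I.filter (fun x => cc x ≠ 0),
        ∀ x ∈ I.filter (fun x => cc x ≠ 0), x.2 ≤ x0.2 := by
      apply Finset.exists_max_image
      exact ⟨x, Finset.mem_filter.2 ⟨by by_contra hxI; exact hx (hcc0 x hxI), hx⟩⟩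
    have hm : ∀ x, cc x ≠ 0 → x.2 ≤ x0.2 := fun x hx => hmax x
      (Finset.mem_filter.2 ⟨by by_contra hxI; exact hx (hcc0 x hxI), hx⟩)
    have hx0' := (Finset.mem_filter.1 hx0).2
    obtain ⟨h6, h7, h8⟩ := hmem x0 hx0'
    have h9 := hm x hx
    exact hx0' (step x0.2 (by omega) hm (Or.inr (by omega)) x0.1 h6)
  -- the correction vanishes
  have s2 : ∀ α ∈ Ω, γ α = 0 := by
    let W : MvPolynomial (Fin (n + 2)) ℂ := ∑ α ∈ Ω, C (γ α) * (X 1 ^ (N - ∑ i, α i) * xmon α)
    let P : MvPolynomial (Fin (n + 2)) ℂ := ∑ x ∈ I, C (cc x) *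
      (X 0 ^ (N - 1 - x.2) * (X 1 ^ (x.2 - ∑ i, x.1 i) * xmon x.1))
    let Q : MvPolynomial (Fin (n + 2)) ℂ := X 1 ^ (d + 1 - 2 * N) *
      ∑ α ∈ Ω, C ((starRingEnd ℂ) (γ α)) * (X 1 ^ (N - ∑ i, α i) * xmon α)
    have hW : W.IsHomogeneous N := by
      refine IsHomogeneous.sum _ _ _ fun α hα => ?_
      have h6 := hΩ α hα
      have := (isHomogeneous_C (Fin (n + 2)) (γ α)).mul ((isHomogeneous_X_pow (R := ℂ)
          (1 : Fin (n + 2)) (N - ∑ i, α i)).mul (xmon_hom α))
      convert this using 1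
      omega
    have hP : P.IsHomogeneous (N - 1) := by
      refine IsHomogeneous.sum _ _ _ fun x _ => ?_
      by_cases hx : cc x = 0
      · rw [hx]; simpa using isHomogeneous_zero _ _ _
      · obtain ⟨_, h6, h7⟩ := hmem x hx
        have h8 := s1 x hx
        have := (isHomogeneous_C (Fin (n + 2)) (cc x)).mul ((isHomogeneous_X_pow (R := ℂ)
          (0 : Fin (n + 2)) (N - 1 - x.2)).mul ((isHomogeneous_X_pow (R := ℂ)
          (1 : Fin (n + 2)) (x.2 - ∑ i, x.1 i)).mul (xmon_hom x.1)))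
        convert this using 1
        omega
    have hQ : Q.IsHomogeneous (d + 1 - N) := by
      have := (isHomogeneous_X_pow (R := ℂ) (1 : Fin (n + 2)) (d + 1 - 2 * N)).mul
        (IsHomogeneous.sum Ω (fun α => C ((starRingEnd ℂ) (γ α)) *
          (X 1 ^ (N - ∑ i, α i) * xmon α)) N fun α hα => ?_)
      · convert this using 1
        omega
      · have h6 := hΩ α hα
        have := (isHomogeneous_C (Fin (n + 2)) ((starRingEnd ℂ) (γ α))).mul
          ((isHomogeneous_X_pow (R := ℂ) (1 : Fin (n + 2)) (N - ∑ i, α i)).mul (xmon_hom α))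
        convert this using 1
        omega
    -- `W + X 0 * P` vanishes at all points
    have h3 : ∀ i, eval (A i) W + A i 0 * eval (A i) P = 0 := by
      intro i
      by_cases hi : A i 0 = 0
      · rw [hi, zero_mul, add_zero, ← R2 i hi]
        simp only [W, map_sum, map_mul, eval_C, map_pow, eval_X, eval_xmon, T]
      · have h4 : A i 0 ^ (d - N) * (eval (A i) W + A i 0 * eval (A i) P) = 0 := by
          rw [← R1 i hi, mul_add, add_comm]
          simp only [W, P, map_sum, map_mul, eval_C, map_pow, eval_X, eval_xmon,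
            Finset.mul_sum, T]
          congr 1
          · refine Finset.sum_congr rfl fun x _ => ?_
            by_cases hx : cc x = 0
            · simp [hx]
            · have h8 := s1 x hx
              rw [show d - x.2 = (d - N) + 1 + (N - 1 - x.2) by omega, pow_add, pow_add]
              ring
          · exact Finset.sum_congr rfl fun α _ => by ring
        rcases mul_eq_zero.1 h4 with h5 | h5
        · exact absurd (eq_zero_of_pow_eq_zero h5) hi
        · exact h5
    -- first pairing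
    have hQB : ∀ j : ℕ, eval (vec fun i => (u j i : ℂ)) Q =
        (starRingEnd ℂ) (∑ α ∈ Ω, γ α * mon (fun i => (u j i : ℂ)) α) := by
      intro j
      simp only [Q, map_sum, map_mul, eval_C, map_pow, eval_X, eval_xmon, vec_one, vec_succ,
        one_pow, one_mul, mon, map_prod, Complex.conj_ofReal]
    have h4 : ∑ i, c i * (d + 1) * A i 0 * eval (A i) (P * Q) = 0 := by
      rw [hpair (P * Q) (by
        have := hP.mul hQ
        rwa [show N - 1 + (d + 1 - N) = d by omega] at this)]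
      refine Finset.sum_eq_zero fun j _ => ?_
      rw [map_mul, hQB, R3 j j.2, map_zero, mul_zero, mul_zero]
    -- second pairing
    have h5 : ∑ i, c i * eval (A i) (W * Q) = 0 := by
      have h6 : (d + 1 : ℂ) * ∑ i, c i * eval (A i) (W * Q) = 0 := by
        rw [← neg_eq_zero, ← h4, Finset.mul_sum, ← Finset.sum_neg_distrib]
        refine Finset.sum_congr rfl fun i _ => ?_
        rw [map_mul (eval (A i)) W Q, map_mul (eval (A i)) P Q]
        linear_combination (-(c i * (d + 1) * eval (A i) Q)) * h3 i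
      rcases mul_eq_zero.1 h6 with h7 | h7
      · exact absurd h7 (Nat.cast_add_one_ne_zero d)
      · exact h7
    have h6 := hpair' (W * Q) (by
      have := hW.mul hQ
      rwa [show N + (d + 1 - N) = d + 1 by omega] at this)
    have h7 : ∀ i, eval (fun a => if a = 0 then 0 else A i a) (W * Q) = eval (A i) (W * Q) := by
      intro i
      have h8 : (1 : Fin (n + 2)) ≠ 0 := by simp
      have h9 : ∀ j : Fin n, j.succ.succ ≠ (0 : Fin (n + 2)) := fun j => Fin.succ_ne_zero _
      simp only [W, Q, map_sum, map_mul, eval_C, map_pow, eval_X, eval_xmon, if_neg h8,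
        if_neg (h9 _)]
    simp only [h7] at h6
    rw [h5] at h6
    have hWB : ∀ j : ℕ, eval (vec fun i => (u j i : ℂ)) W =
        ∑ α ∈ Ω, γ α * mon (fun i => (u j i : ℂ)) α := by
      intro j
      simp only [W, map_sum, map_mul, eval_C, map_pow, eval_X, eval_xmon, vec_one, vec_succ,
        one_pow, one_mul]
    simp only [map_mul, hWB, hQB, one_mul, Complex.mul_conj] at h6
    have h15 : ∑ j : Fin q, Complex.normSq
        (∑ α ∈ Ω, γ α * mon (fun i => (u (Λ.card + j) i : ℂ)) α) = 0 := by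
      exact_mod_cast h6.symm
    rw [Finset.sum_eq_zero_iff_of_nonneg fun j _ => Complex.normSq_nonneg _] at h15
    refine hu Ω (Finset.Subset.refl _) γ fun j hj => ?_
    rcases lt_or_ge j Λ.card with h16 | h16
    · exact R3 j h16
    · have h17 := h15 ⟨j - Λ.card, by omega⟩ (Finset.mem_univ _)
      have h18 := Complex.normSq_eq_zero.1 h17
      simpa only [show Λ.card + (j - Λ.card) = j by omega] using h18
  -- all components vanish
  have s3 : ∀ x, cc x = 0 := by
    by_contra hneg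
    push Not at hneg
    obtain ⟨x, hx⟩ := hneg
    obtain ⟨x0, hx0, hmax⟩ : ∃ x0 ∈ I.filter (fun x => cc x ≠ 0),
        ∀ x ∈ I.filter (fun x => cc x ≠ 0), x.2 ≤ x0.2 := by
      apply Finset.exists_max_image
      exact ⟨x, Finset.mem_filter.2 ⟨by by_contra hxI; exact hx (hcc0 x hxI), hx⟩⟩
    have hm : ∀ x, cc x ≠ 0 → x.2 ≤ x0.2 := fun x hx => hmax x
      (Finset.mem_filter.2 ⟨by by_contra hxI; exact hx (hcc0 x hxI), hx⟩)
    have hx0' := (Finset.mem_filter.1 hx0).2
    obtain ⟨h6, h7, h8⟩ := hmem x0 hx0'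
    exact hx0' (step x0.2 (by omega) hm (Or.inl s2) x0.1 h6)
  obtain ⟨x, hx⟩ := hw1
  rcases x with x | α
  · exact hx (s3 x)
  · by_cases hα : α ∈ Ω
    · exact hx (s2 α hα)
    · exact hx (hγ0 α hα)

end Pool.Agent.R840.SR
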