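import Pool.Agent.R840.SR.B

set_option autoImplicit false

namespace Pool.Agent.R840.SR

open MvPolynomial Filter Topology

/-- `F` is a linear combination of `r` `k`-th powers of linear forms in `m` variables. -/
def RankLE (m k r : ℕ) (F : MvPolynomial (Fin m) ℂ) : Prop :=
  ∃ (c : Fin r → ℂ) (l : Fin r → MvPolynomial (Fin m) ℂ),
    (∀ i, (l i).IsHomogeneous 1) ∧ F = ∑ i, C (c i) * l i ^ k

theorem RankLE.add {m k a b : ℕ} {F G : MvPolynomial (Fin m) ℂ} (hF : RankLE m k a F)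
    (hG : RankLE m k b G) : RankLE m k (a + b) (F + G) := by
  obtain ⟨c, l, hl, rfl⟩ := hF
  obtain ⟨c', l', hl', rfl⟩ := hG
  refine ⟨Fin.append c c', Fin.append l l', ?_, ?_⟩
  · intro i
    refine Fin.addCases (fun i => ?_) (fun i => ?_) i
    · rw [Fin.append_left]; exact hl i
    · rw [Fin.append_right]; exact hl' i
  · rw [Fin.sum_univ_add]
    simp [Fin.append_left, Fin.append_right]

theorem RankLE.zero {m k : ℕ} (r : ℕ) : RankLE m k r 0 :=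
  ⟨fun _ => 0, fun _ => 0, fun _ => isHomogeneous_zero _ _ _, by simp⟩

theorem RankLE.mono {m k a b : ℕ} (hab : a ≤ b) {F : MvPolynomial (Fin m) ℂ}
    (hF : RankLE m k a F) : RankLE m k b F := by
  have := hF.add (RankLE.zero (m := m) (k := k) (b - a))
  rwa [add_zero, Nat.add_sub_cancel' hab] at this

/-- The approximating forms. -/
noncomputable def approx {m ρ : ℕ} (k : ℕ) (z : MvPolynomial (Fin m) ℂ)
    (l : Fin ρ → MvPolynomial (Fin m) ℂ) (ε : ℂ) : MvPolynomial (Fin m) ℂ :=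
  (∑ j, C (1 / (k * ε)) * (C ε * z + l j) ^ k) + ∑ j, C (-1 / (k * ε)) * l j ^ k

theorem approx_rank {m ρ k : ℕ} (z : MvPolynomial (Fin m) ℂ) (hz : z.IsHomogeneous 1)
    (l : Fin ρ → MvPolynomial (Fin m) ℂ) (hl : ∀ j, (l j).IsHomogeneous 1) (ε : ℂ) :
    RankLE m k (ρ + ρ) (approx k z l ε) := by
  refine RankLE.add ⟨fun _ => 1 / (k * ε), fun j => C ε * z + l j, fun j => ?_, rfl⟩
    ⟨fun _ => -1 / (k * ε), l, hl, rfl⟩
  refine IsHomogeneous.add ?_ (hl j)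
  simpa using (isHomogeneous_C (Fin m) ε).mul hz

theorem approx_eq {m ρ d : ℕ} (z : MvPolynomial (Fin m) ℂ) (l : Fin ρ → MvPolynomial (Fin m) ℂ)
    (ε : ℂ) (hε : ε ≠ 0) (s : Fin m →₀ ℕ) :
    coeff s (approx (d + 1) z l ε) = ∑ j, ∑ i ∈ Finset.range (d + 1),
      (((d + 1).choose (i + 1) : ℂ) / ((d + 1 : ℕ) : ℂ) * ε ^ i) *
        coeff s (z ^ (i + 1) * l j ^ (d - i)) := by
  unfold approx
  rw [← Finset.sum_add_distrib, coeff_sum]
  refine Finset.sum_congr rfl fun j _ => ?_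
  rw [add_pow, Finset.sum_range_succ', mul_add, coeff_add, coeff_add]
  have h0 : coeff s (C (1 / (((d + 1 : ℕ) : ℂ) * ε)) *
      ((C ε * z) ^ 0 * l j ^ (d + 1 - 0) * ((d + 1).choose 0 : MvPolynomial (Fin m) ℂ))) +
      coeff s (C (-1 / (((d + 1 : ℕ) : ℂ) * ε)) * l j ^ (d + 1)) = 0 := by
    rw [← coeff_add]
    have : C (1 / (((d + 1 : ℕ) : ℂ) * ε)) *
      ((C ε * z) ^ 0 * l j ^ (d + 1 - 0) * ((d + 1).choose 0 : MvPolynomial (Fin m) ℂ)) +
      C (-1 / (((d + 1 : ℕ) : ℂ) * ε)) * l j ^ (d + 1) = 0 := by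
      rw [neg_div, map_neg]
      simp
    rw [this, coeff_zero]
  rw [add_assoc, h0, add_zero, Finset.mul_sum, coeff_sum]
  refine Finset.sum_congr rfl fun i hi => ?_
  have hd : ((d + 1 : ℕ) : ℂ) ≠ 0 := Nat.cast_ne_zero.2 (Nat.succ_ne_zero d)
  have : C (1 / (((d + 1 : ℕ) : ℂ) * ε)) * ((C ε * z) ^ (i + 1) * l j ^ (d + 1 - (i + 1)) *
      ((d + 1).choose (i + 1) : MvPolynomial (Fin m) ℂ)) =
      C (((d + 1).choose (i + 1) : ℂ) / ((d + 1 : ℕ) : ℂ) * ε ^ i) *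
        (z ^ (i + 1) * l j ^ (d - i)) := by
    rw [show ((d + 1).choose (i + 1) : MvPolynomial (Fin m) ℂ) =
      C ((d + 1).choose (i + 1) : ℂ) by simp, mul_pow, ← C_pow, Nat.add_sub_add_right]
    have h2 : (1 / (((d + 1 : ℕ) : ℂ) * ε)) * ε ^ (i + 1) * ((d + 1).choose (i + 1) : ℂ) =
        ((d + 1).choose (i + 1) : ℂ) / ((d + 1 : ℕ) : ℂ) * ε ^ i := by
      field_simp
      ring
    rw [← h2, C_mul, C_mul]
    ring
  rw [this, coeff_C_mul]

theorem approx_tendsto {m ρ d : ℕ} (z : MvPolynomial (Fin m) ℂ)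
    (l : Fin ρ → MvPolynomial (Fin m) ℂ) (s : Fin m →₀ ℕ) :
    Tendsto (fun N : ℕ => coeff s (approx (d + 1) z l (1 / ((N : ℂ) + 1)))) atTop
      (𝓝 (coeff s (z * ∑ j, l j ^ d))) := by
  let g : ℂ → ℂ := fun ε => ∑ j, ∑ i ∈ Finset.range (d + 1),
      (((d + 1).choose (i + 1) : ℂ) / ((d + 1 : ℕ) : ℂ) * ε ^ i) *
        coeff s (z ^ (i + 1) * l j ^ (d - i))
  have hg : Continuous g := by fun_prop
  have hg0 : g 0 = coeff s (z * ∑ j, l j ^ d) := by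
    have hd : ((d : ℂ) + 1) ≠ 0 := Nat.cast_add_one_ne_zero d
    simp only [g]
    rw [Finset.mul_sum, coeff_sum]
    refine Finset.sum_congr rfl fun j _ => ?_
    rw [Finset.sum_eq_single 0]
    · simp [hd]
    · intro i _ hi
      rw [zero_pow hi]
      simp
    · simp
  have h1 : Tendsto (fun N : ℕ => g (1 / ((N : ℂ) + 1))) atTop (𝓝 (g 0)) :=
    (hg.tendsto 0).comp (tendsto_one_div_add_atTop_nhds_zero_nat (𝕜 := ℂ))
  rw [← hg0]
  refine h1.congr fun N => ?_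
  rw [approx_eq]
  have : ((N : ℂ) + 1) ≠ 0 := Nat.cast_add_one_ne_zero N
  simpa using this

/-- The general statement. -/
theorem main {n d r N : ℕ} (Λ Ω : Finset (Fin n →₀ ℕ)) (hΛ : Λ ⊆ Ω)
    (hΩ : ∀ α ∈ Ω, ∑ i, α i ≤ N) (hN : 2 * N ≤ d + 1) (hN1 : 1 ≤ N)
    (h1 : Λ.card + Ω.card ≤ r)
    (h2 : r + Λ.card < ∑ α ∈ Λ, (d + 1 - 2 * ∑ i, α i) + Ω.card) :
    ∃ F : MvPolynomial (Fin (n + 2)) ℂ, F.IsHomogeneous (d + 1) ∧ ¬ RankLE (n + 2) (d + 1) r F ∧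
      ∃ G : ℕ → MvPolynomial (Fin (n + 2)) ℂ, (∀ N, RankLE (n + 2) (d + 1) r (G N)) ∧
        ∀ s, Tendsto (fun N => coeff s (G N)) atTop (𝓝 (coeff s F)) := by
  obtain ⟨u, hu⟩ := exists_points Ω
  obtain ⟨q, hq⟩ := Nat.exists_eq_add_of_le (Finset.card_le_card hΛ)
  let H : MvPolynomial (Fin (n + 2)) ℂ :=
    ∑ j : Fin q, lin (vec fun i => (u (Λ.card + j) i : ℂ)) ^ (d + 1)
  have hH : RankLE (n + 2) (d + 1) q H :=
    ⟨fun _ => 1, fun j => lin (vec fun i => (u (Λ.card + j) i : ℂ)), fun j => lin_hom _, by simp [H]⟩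
  refine ⟨X 0 * ∑ j : Fin Λ.card, lin (vec fun i => (u j i : ℂ)) ^ d + H, ?_, ?_,
    fun N => approx (d + 1) (X 0) (fun j : Fin Λ.card => lin (vec fun i => (u j i : ℂ)))
      (1 / ((N : ℂ) + 1)) + H, ?_, ?_⟩
  · refine IsHomogeneous.add ?_ (IsHomogeneous.sum _ _ _ fun j _ => by
      simpa using (lin_hom (vec fun i => (u (Λ.card + j) i : ℂ))).pow (d + 1))
    rw [add_comm d 1]
    refine (isHomogeneous_X ℂ (0 : Fin (n + 2))).mul (IsHomogeneous.sum _ _ _ fun j _ => ?_)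
    simpa using (lin_hom (vec fun i => (u j i : ℂ))).pow d
  · rintro ⟨c, l, hl, h⟩
    choose A hA using fun i => exists_lin (l i) (hl i)
    have := lower (d := d) Λ Ω hΛ hΩ hN hN1 hq u hu c A (by rw [h]; simp only [hA])
    omega
  · intro N
    refine RankLE.mono (a := Λ.card + Λ.card + q) (by omega) (RankLE.add ?_ hH)
    exact approx_rank _ (isHomogeneous_X ℂ _) _ (fun j => lin_hom _) _
  · intro s
    simp only [coeff_add]
    exact (approx_tendsto _ _ s).add tendsto_const_nhds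

end Pool.Agent.R840.SR
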