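import Mathlib

set_option autoImplicit false

namespace Pool.Agent.R840.SR

open Module

/-- A subspace of `S → ℂ` is determined by at most `dim` coordinates. -/
theorem exists_coords {S : Type} [Fintype S] (d : ℕ) : ∀ K : Submodule ℂ (S → ℂ),
    finrank ℂ K ≤ d → ∃ T : Finset S, T.card ≤ d ∧ ∀ e ∈ K, (∀ i ∈ T, e i = 0) → e = 0 := by
  classical
  induction d with
  | zero =>
    intro K hK
    have : K = ⊥ := Submodule.finrank_eq_zero.1 (Nat.le_zero.1 hK)
    exact ⟨∅, by simp, fun e he _ => by rw [this] at he; simpa using he⟩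
  | succ d ih =>
    intro K hK
    by_cases hbot : K = ⊥
    · exact ⟨∅, by simp, fun e he _ => by rw [hbot] at he; simpa using he⟩
    obtain ⟨e0, he0, hne⟩ := Submodule.exists_mem_ne_zero_of_ne_bot hbot
    obtain ⟨i, hi⟩ := Function.ne_iff.1 hne
    let K' : Submodule ℂ (S → ℂ) := K ⊓ LinearMap.ker (LinearMap.proj i : (S → ℂ) →ₗ[ℂ] ℂ)
    have hlt : K' < K := by
      refine lt_of_le_of_ne inf_le_left fun h => hi ?_
      have : e0 ∈ K' := by rw [h]; exact he0
      simpa [K'] using this.2
    have hfr : finrank ℂ K' < finrank ℂ K := Submodule.finrank_lt_finrank_of_lt hlt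
    obtain ⟨T, hT, hT2⟩ := ih K' (by omega)
    refine ⟨insert i T, (Finset.card_insert_le _ _).trans (by omega), fun e he h => ?_⟩
    refine hT2 e ⟨he, ?_⟩ fun j hj => h j (Finset.mem_insert_of_mem hj)
    simpa using h i (Finset.mem_insert_self _ _)

/-- The annihilator of the image of an injective map. -/
theorem exists_coords' {S U : Type} [Fintype S] [AddCommGroup U] [Module ℂ U]
    [FiniteDimensional ℂ U] (M : U →ₗ[ℂ] (S → ℂ)) (hM : Function.Injective M) (n : ℕ)
    (hn : Fintype.card S ≤ n + finrank ℂ U) :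
    ∃ T : Finset S, T.card ≤ n ∧ ∀ e : S → ℂ, (∀ l, ∑ i, e i * M l i = 0) →
      (∀ i ∈ T, e i = 0) → e = 0 := by
  classical
  let L : (S → ℂ) →ₗ[ℂ] Dual ℂ U :=
    { toFun := fun e => ∑ i, e i • (LinearMap.proj i ∘ₗ M)
      map_add' := fun e e' => by simp [add_smul, Finset.sum_add_distrib]
      map_smul' := fun c e => by simp [mul_smul, Finset.smul_sum] }
  have hL : ∀ e l, L e l = ∑ i, e i * M l i := by
    intro e l
    simp [L]
  have hsurj : LinearMap.range L = ⊤ := by
    rw [LinearMap.range_eq_top]
    intro φ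
    obtain ⟨ψ, hψ⟩ := LinearMap.dualMap_surjective_of_injective hM φ
    refine ⟨fun i => ψ (Pi.single i 1), ?_⟩
    ext l
    rw [hL, ← hψ, LinearMap.dualMap_apply, LinearMap.pi_apply_eq_sum_univ ψ (M l)]
    refine Finset.sum_congr rfl fun i _ => ?_
    rw [smul_eq_mul, mul_comm]
    congr 2
    funext j
    simp [Pi.single_apply, eq_comm]
  have hrn := LinearMap.finrank_range_add_finrank_ker L
  rw [hsurj, finrank_top, Subspace.dual_finrank_eq, Module.finrank_fintype_fun_eq_card] at hrn
  obtain ⟨T, hT, hT2⟩ := exists_coords n (LinearMap.ker L) (by omega)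
  refine ⟨T, hT, fun e he h => hT2 e ?_ h⟩
  rw [LinearMap.mem_ker]
  ext l
  rw [hL, he l]
  rfl

/-- The lower bound for cubics. -/
theorem cubic_lower (n : ℕ) : ∀ (W : Type) [AddCommGroup W] [Module ℂ W]
    [FiniteDimensional ℂ W], finrank ℂ W = n + 1 → ∀ {ι : Type} (S : Finset ι) (lam a : ι → ℂ)
    (ω : ι → W →ₗ[ℂ] ℂ) (Z : W),
    (∀ w w' w'', ∑ i ∈ S, lam i * (ω i w * ω i w' * ω i w'') = 0) →
    (∀ w, ∑ i ∈ S, lam i * (ω i Z * ω i w * a i) = 0) →
    (∀ w, (∀ w', ∑ i ∈ S, lam i * (ω i w * ω i w' * a i) = 0) → ∃ c : ℂ, w = c • Z) →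
    ∑ i ∈ S, lam i * (ω i Z * a i ^ 2) ≠ 0 → 2 * n + 3 ≤ S.card := by
  classical
  induction n using Nat.strong_induction_on with
  | _ n ih =>
  intro W _ _ _ hW ι S lam a ω Z h1 h2 h3 h4
  by_contra hcon
  push Not at hcon
  let M : (ℂ × W) →ₗ[ℂ] (S → ℂ) :=
    { toFun := fun l i => lam i * (l.1 * a i + ω i l.2)
      map_add' := fun l l' => by
        funext i
        simp only [Prod.fst_add, Prod.snd_add, map_add, Pi.add_apply]
        ring
      map_smul' := fun c l => by
        funext i
        simp only [Prod.smul_fst, Prod.smul_snd, map_smul, Pi.smul_apply, smul_eq_mul,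
          RingHom.id_apply]
        ring }
  have hMi : Function.Injective M := by
    rw [injective_iff_map_eq_zero]
    rintro ⟨p, w⟩ hpw
    have hz : ∀ i ∈ S, lam i * (p * a i + ω i w) = 0 := fun i hi => congrFun hpw ⟨i, hi⟩
    have hp : p = 0 := by
      have h5 : ∑ i ∈ S, (lam i * (p * a i + ω i w)) * (ω i Z * a i) = 0 :=
        Finset.sum_eq_zero fun i hi => by rw [hz i hi, zero_mul]
      have h6 : ∑ i ∈ S, (lam i * (p * a i + ω i w)) * (ω i Z * a i) =
          p * ∑ i ∈ S, lam i * (ω i Z * a i ^ 2) + ∑ i ∈ S, lam i * (ω i Z * ω i w * a i) := by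
        rw [Finset.mul_sum, ← Finset.sum_add_distrib]
        exact Finset.sum_congr rfl fun i _ => by ring
      rw [h6, h2, add_zero] at h5
      exact (mul_eq_zero.1 h5).resolve_right h4
    have hw : w = 0 := by
      obtain ⟨c, hc⟩ := h3 w fun w' => by
        have h5 : ∑ i ∈ S, (lam i * (p * a i + ω i w)) * (ω i w' * a i) = 0 :=
          Finset.sum_eq_zero fun i hi => by rw [hz i hi, zero_mul]
        rw [hp] at h5
        rw [← h5]
        exact Finset.sum_congr rfl fun i _ => by ring
      have h5 : ∑ i ∈ S, (lam i * (p * a i + ω i w)) * (a i ^ 2) = 0 :=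
        Finset.sum_eq_zero fun i hi => by rw [hz i hi, zero_mul]
      have h6 : ∑ i ∈ S, (lam i * (p * a i + ω i w)) * (a i ^ 2) =
          c * ∑ i ∈ S, lam i * (ω i Z * a i ^ 2) := by
        rw [Finset.mul_sum]
        refine Finset.sum_congr rfl fun i _ => ?_
        rw [hp, hc, map_smul, smul_eq_mul]
        ring
      rw [h6] at h5
      rw [hc, (mul_eq_zero.1 h5).resolve_right h4, zero_smul]
    rw [hp, hw]
    rfl
  obtain ⟨T, hT, hT2⟩ := exists_coords' M hMi n (by
    rw [Fintype.card_coe, Module.finrank_prod, finrank_self, hW]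
    omega)
  -- a vector vanishing on `T`
  let R : W →ₗ[ℂ] (T → ℂ) := LinearMap.pi fun i => ω i.1
  have hR : LinearMap.ker R ≠ ⊥ := by
    apply LinearMap.ker_ne_bot_of_finrank_lt
    rw [Module.finrank_fintype_fun_eq_card, Fintype.card_coe, hW]
    omega
  obtain ⟨v, hv, hv0⟩ := Submodule.exists_mem_ne_zero_of_ne_bot hR
  have hvT : ∀ i ∈ T, ω i v = 0 := fun i hi => congrFun (LinearMap.mem_ker.1 hv) ⟨i, hi⟩
  have key : ∀ w, ∑ i ∈ S, lam i * (ω i v * ω i w * a i) = 0 → ∀ i ∈ S, ω i v * ω i w = 0 := by
    intro w hw i hi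
    have h5 := hT2 (fun i => ω i v * ω i w) ?_ fun i hi => by rw [hvT i hi, zero_mul]
    · exact congrFun h5 ⟨i, hi⟩
    · rintro ⟨p, u⟩
      have h6 := Finset.sum_coe_sort S fun i => ω i v * ω i w * (lam i * (p * a i + ω i u))
      refine h6.trans ?_
      have h7 : ∑ i ∈ S, ω i v * ω i w * (lam i * (p * a i + ω i u)) =
          p * ∑ i ∈ S, lam i * (ω i v * ω i w * a i) +
            ∑ i ∈ S, lam i * (ω i v * ω i w * ω i u) := by
        rw [Finset.mul_sum, ← Finset.sum_add_distrib]
        exact Finset.sum_congr rfl fun i _ => by ring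
      rw [h7, hw, h1, mul_zero, add_zero]
  have hvv : ∑ i ∈ S, lam i * (ω i v * ω i v * a i) ≠ 0 := by
    intro h5
    apply hv0
    have h6 : M (0, v) = 0 := by
      funext i
      have h7 := key v h5 i i.2
      have h8 : ω i v = 0 := mul_self_eq_zero.1 h7
      simp [M, h8]
    have h7 := hMi (h6.trans (map_zero M).symm)
    exact congrArg Prod.snd h7
  -- the orthogonal complement of `v`
  let Qv : W →ₗ[ℂ] ℂ := ∑ i ∈ S, (lam i * ω i v * a i) • ω i
  have hQv : ∀ w, Qv w = ∑ i ∈ S, lam i * (ω i v * ω i w * a i) := by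
    intro w
    simp only [Qv, LinearMap.sum_apply, LinearMap.smul_apply, smul_eq_mul]
    exact Finset.sum_congr rfl fun i _ => by ring
  have hZ : Qv Z = 0 := by
    rw [hQv, ← h2 v]
    exact Finset.sum_congr rfl fun i _ => by ring
  have hW' : finrank ℂ (LinearMap.ker Qv) = n := by
    have h5 := LinearMap.finrank_range_add_finrank_ker Qv
    have h6 : LinearMap.range Qv = ⊤ := by
      rw [LinearMap.range_eq_top]
      apply LinearMap.surjective
      intro h7
      apply hvv
      rw [← hQv, h7]
      rfl
    rw [h6, finrank_top, finrank_self, hW] at h5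
    omega
  rcases Nat.eq_zero_or_pos n with hn | hn
  · rw [hn] at hW'
    have h5 : LinearMap.ker Qv = ⊥ := Submodule.finrank_eq_zero.1 hW'
    have h6 : Z ∈ LinearMap.ker Qv := hZ
    rw [h5, Submodule.mem_bot] at h6
    apply h4
    rw [h6]
    simp
  · obtain ⟨n', rfl⟩ : ∃ n', n = n' + 1 := ⟨n - 1, by omega⟩
    let S' := S.filter fun i => ω i v = 0
    have hsum : ∀ (w : LinearMap.ker Qv) (g : ι → ℂ),
        ∑ i ∈ S', lam i * (ω i w * g i) = ∑ i ∈ S, lam i * (ω i w * g i) := by
      intro w g
      refine Finset.sum_subset (Finset.filter_subset _ _) fun i hi hi' => ?_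
      have h5 : ω i v ≠ 0 := fun h => hi' (Finset.mem_filter.2 ⟨hi, h⟩)
      have h6 := key w (by rw [← hQv]; exact w.2) i hi
      rw [(mul_eq_zero.1 h6).resolve_left h5]
      ring
    have h5 := ih n' (by omega) (LinearMap.ker Qv) hW' S' lam a
      (fun i => (ω i).comp (LinearMap.ker Qv).subtype) ⟨Z, hZ⟩ ?_ ?_ ?_ ?_
    · -- at least two points off `v = 0`
      have h7 : S'.card + (S.filter fun i => ¬ ω i v = 0).card = S.card :=
        Finset.card_filter_add_card_filter_not (s := S) (fun i => ω i v = 0)
      have h6 : 2 ≤ (S.filter fun i => ¬ ω i v = 0).card := by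
        by_contra h7
        have h8 : ∑ i ∈ S.filter (fun i => ¬ ω i v = 0), lam i * (ω i v * ω i v * a i) ≠ 0 := by
          intro h9
          apply hvv
          rw [← h9]
          symm
          refine Finset.sum_subset (Finset.filter_subset _ _) fun i hi hi' => ?_
          have h10 : ω i v = 0 := by
            by_contra h; exact hi' (Finset.mem_filter.2 ⟨hi, h⟩)
          rw [h10]; ring
        have h9 : ∑ i ∈ S.filter (fun i => ¬ ω i v = 0),
            lam i * (ω i v * ω i v * ω i v) = 0 := by
          refine (Finset.sum_subset (Finset.filter_subset _ _) fun i hi hi' => ?_).trans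
            (h1 v v v)
          have h10 : ω i v = 0 := by
            by_contra h; exact hi' (Finset.mem_filter.2 ⟨hi, h⟩)
          rw [h10]; ring
        have h10 : (S.filter fun i => ¬ ω i v = 0).card = 0 ∨
            (S.filter fun i => ¬ ω i v = 0).card = 1 := by omega
        rcases h10 with h11 | h11
        · rw [Finset.card_eq_zero] at h11
          rw [h11] at h8
          simp at h8
        · obtain ⟨i, h11⟩ := Finset.card_eq_one.1 h11
          have h12 : ω i v ≠ 0 := by
            have : i ∈ S.filter fun i => ¬ ω i v = 0 := by rw [h11]; simp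
            exact (Finset.mem_filter.1 this).2
          rw [h11, Finset.sum_singleton] at h8 h9
          have h13 : lam i = 0 := by
            rcases mul_eq_zero.1 h9 with h | h
            · exact h
            · exact absurd h (mul_ne_zero (mul_ne_zero h12 h12) h12)
          rw [h13] at h8
          simp at h8
      omega
    · intro w w' w''
      have h6 := hsum w fun i => ω i w' * ω i w''
      have h7 := h1 w w' w''
      calc _ = ∑ i ∈ S', lam i * (ω i w * (ω i w' * ω i w'')) :=
            Finset.sum_congr rfl fun i _ => by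
              simp only [LinearMap.comp_apply, Submodule.subtype_apply]; ring
        _ = _ := h6
        _ = ∑ i ∈ S, lam i * (ω i w * ω i w' * ω i w'') :=
            Finset.sum_congr rfl fun i _ => by ring
        _ = 0 := h7
    · intro w
      have h6 := hsum w fun i => ω i Z * a i
      calc _ = ∑ i ∈ S', lam i * (ω i w * (ω i Z * a i)) :=
            Finset.sum_congr rfl fun i _ => by
              simp only [LinearMap.comp_apply, Submodule.subtype_apply]; ring
        _ = _ := h6
        _ = ∑ i ∈ S, lam i * (ω i Z * ω i w * a i) :=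
            Finset.sum_congr rfl fun i _ => by ring
        _ = 0 := h2 w
    · intro w hw
      obtain ⟨c, hc⟩ := h3 w fun w' => by
        -- decompose `w'`
        set t := Qv w' / Qv v with ht
        have hvv' : Qv v ≠ 0 := by rw [hQv]; exact hvv
        have h6 : w' - t • v ∈ LinearMap.ker Qv := by
          rw [LinearMap.mem_ker, map_sub, map_smul, smul_eq_mul, ht]
          field_simp
          ring
        have h7 := hw ⟨_, h6⟩
        have h8 := hsum w fun i => ω i (w' - t • v) * a i
        have h9 : ∑ i ∈ S, lam i * (ω i w * (ω i (w' - t • v) * a i)) = 0 := by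
          rw [← h8, ← h7]
          exact Finset.sum_congr rfl fun i _ => by
            simp only [LinearMap.comp_apply, Submodule.subtype_apply]; ring
        have h10 : Qv w = 0 := w.2
        rw [hQv] at h10
        calc _ = ∑ i ∈ S, lam i * (ω i w * (ω i (w' - t • v) * a i)) +
              t * ∑ i ∈ S, lam i * (ω i v * ω i w * a i) := by
              rw [Finset.mul_sum, ← Finset.sum_add_distrib]
              refine Finset.sum_congr rfl fun i _ => ?_
              rw [map_sub, map_smul, smul_eq_mul]
              ring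
          _ = 0 := by rw [h9, h10, mul_zero, add_zero]
      exact ⟨c, Subtype.ext hc⟩
    · have h6 := hsum ⟨Z, hZ⟩ fun i => a i ^ 2
      intro h7
      apply h4
      rw [← h7]
      exact h6.symm

end Pool.Agent.R840.SR
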