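import Pool.Agent.R840.SR.C
import Pool.Agent.R840.SR.D

set_option autoImplicit false

namespace Pool.Agent.R840.SR

open MvPolynomial Filter Topology

/-- The directional derivative. -/
noncomputable def Dw {m : ℕ} (w : Fin m → ℂ) :
    Derivation ℂ (MvPolynomial (Fin m) ℂ) (MvPolynomial (Fin m) ℂ) :=
  mkDerivation ℂ fun j => C (w j)

theorem Dw_X {m : ℕ} (w : Fin m → ℂ) (i : Fin m) : Dw w (X i) = C (w i) := mkDerivation_X _ _ _

theorem Dw_C {m : ℕ} (w : Fin m → ℂ) (c : ℂ) : Dw w (C c) = 0 := Derivation.map_algebraMap _ c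

theorem Dw_lin {m : ℕ} (w A : Fin m → ℂ) : Dw w (lin A) = C (∑ j, w j * A j) := by
  unfold lin
  rw [map_sum, map_sum]
  refine Finset.sum_congr rfl fun j _ => ?_
  rw [Derivation.map_smul, Dw_X, smul_eq_C_mul, ← C_mul, mul_comm]

theorem Dw_pow {m : ℕ} (w A : Fin m → ℂ) (c : ℂ) (k : ℕ) :
    Dw w (C c * lin A ^ (k + 1)) = C (c * (k + 1) * ∑ j, w j * A j) * lin A ^ k := by
  rw [Derivation.leibniz, Derivation.leibniz_pow, Dw_C, Dw_lin]
  simp only [smul_eq_mul, mul_zero, add_zero, nsmul_eq_mul, Nat.add_sub_cancel, C_mul, map_add,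
    map_one, Nat.cast_add, Nat.cast_one, map_natCast]
  ring

theorem Dw_three {m : ℕ} (w w' w'' A : Fin m → ℂ) (c : ℂ) :
    Dw w'' (Dw w' (Dw w (C c * lin A ^ 3))) =
      C (6 * (c * ((∑ j, w j * A j) * (∑ j, w' j * A j) * (∑ j, w'' j * A j)))) := by
  rw [Dw_pow, Dw_pow, Dw_pow, pow_zero, mul_one]
  congr 1
  norm_num
  ring

/-- The cubic form `x ^ 2 z + x (∑ y_i ^ 2 + (∑ y_i) ^ 2)`. -/
noncomputable def cub (n : ℕ) : MvPolynomial (Fin (n + 2)) ℂ :=
  X 1 ^ 2 * X 0 + X 1 * (∑ i : Fin n, X i.succ.succ ^ 2 + (∑ i : Fin n, X i.succ.succ) ^ 2)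

theorem D1 {n : ℕ} (w : Fin (n + 2) → ℂ) (hw : w 1 = 0) : Dw w (cub n) =
    C (w 0) * X 1 ^ 2 + X 1 * (∑ i : Fin n, C (2 * w i.succ.succ) * X i.succ.succ +
      C (2 * ∑ i : Fin n, w i.succ.succ) * ∑ i : Fin n, X i.succ.succ) := by
  have h1 : Dw w (X 1) = 0 := by rw [Dw_X, hw, map_zero]
  have h2 : Dw w (∑ i : Fin n, X i.succ.succ ^ 2) =
      ∑ i : Fin n, C (2 * w i.succ.succ) * X i.succ.succ := by
    rw [map_sum]
    refine Finset.sum_congr rfl fun i _ => ?_
    rw [Derivation.leibniz_pow, Dw_X, C_mul]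
    simp only [smul_eq_mul, nsmul_eq_mul, Nat.cast_ofNat, Nat.reduceSub, pow_one, map_ofNat]
    ring
  have h3 : Dw w ((∑ i : Fin n, X i.succ.succ) ^ 2) =
      C (2 * ∑ i : Fin n, w i.succ.succ) * ∑ i : Fin n, X i.succ.succ := by
    rw [Derivation.leibniz_pow, map_sum, C_mul, map_sum]
    simp only [smul_eq_mul, nsmul_eq_mul, Nat.cast_ofNat, Nat.reduceSub, pow_one, map_ofNat, Dw_X]
    ring
  unfold cub
  rw [map_add, Derivation.leibniz, Derivation.leibniz, Derivation.leibniz_pow, map_add, h1, h2,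
    h3, Dw_X]
  simp only [smul_eq_mul, smul_zero, mul_zero, add_zero]
  ring

theorem D2 {n : ℕ} (w w' : Fin (n + 2) → ℂ) (hw : w 1 = 0) (hw' : w' 1 = 0) :
    Dw w' (Dw w (cub n)) = C (2 * (∑ i : Fin n, w i.succ.succ * w' i.succ.succ +
      (∑ i : Fin n, w i.succ.succ) * ∑ i : Fin n, w' i.succ.succ)) * X 1 := by
  have h1 : Dw w' (X 1) = 0 := by rw [Dw_X, hw', map_zero]
  rw [D1 w hw, map_add, Derivation.leibniz, Derivation.leibniz, Derivation.leibniz_pow, map_add,
    h1, Dw_C, Derivation.leibniz, Dw_C, map_sum, map_sum]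
  have h2 : ∀ i : Fin n, Dw w' (C (2 * w i.succ.succ) * X i.succ.succ) =
      C (2 * (w i.succ.succ * w' i.succ.succ)) := by
    intro i
    rw [Derivation.leibniz, Dw_C, Dw_X]
    simp only [smul_eq_mul, mul_zero, add_zero, C_mul]
    ring
  simp only [h2, Dw_X, ← map_sum, ← Finset.mul_sum]
  simp only [smul_eq_mul, smul_zero, mul_zero, add_zero, zero_add, C_mul, map_add]
  ring

theorem D3 {n : ℕ} (w w' w'' : Fin (n + 2) → ℂ) (hw : w 1 = 0) (hw' : w' 1 = 0) :
    Dw w'' (Dw w' (Dw w (cub n))) = C (2 * (∑ i : Fin n, w i.succ.succ * w' i.succ.succ +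
      (∑ i : Fin n, w i.succ.succ) * ∑ i : Fin n, w' i.succ.succ) * w'' 1) := by
  rw [D2 w w' hw hw', Derivation.leibniz, Dw_C, Dw_X]
  simp only [smul_eq_mul, mul_zero, add_zero, C_mul]

theorem D3' {n : ℕ} (w w' w'' : Fin (n + 2) → ℂ) (hw : w 1 = 0)
    (hw2 : ∀ i : Fin n, w i.succ.succ = 0) :
    Dw w'' (Dw w' (Dw w (cub n))) = C (2 * w 0 * w' 1 * w'' 1) := by
  have h : Dw w (cub n) = C (w 0) * X 1 ^ 2 := by
    rw [D1 w hw]
    simp [hw2]
  rw [h, Derivation.leibniz, Derivation.leibniz_pow, Dw_C, Dw_X]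
  simp only [smul_eq_mul, nsmul_eq_mul, mul_zero, add_zero, Nat.cast_ofNat, Nat.reduceSub, pow_one]
  have h2 : C (w 0) * (2 * (X 1 * C (w' 1))) = 
      C (2 * w 0 * w' 1) * (X 1 : MvPolynomial (Fin (n + 2)) ℂ) := by
    simp only [C_mul, map_ofNat]
    ring
  rw [h2, Derivation.leibniz, Dw_C, Dw_X]
  simp only [smul_eq_mul, mul_zero, add_zero, C_mul]

/-- The vector attached to a tuple: coordinate `0` is the coefficient of `X 0`, the others are the
coefficients of `X 2, X 3, …`. -/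
def emb {n : ℕ} : (Fin (n + 1) → ℂ) →ₗ[ℂ] (Fin (n + 2) → ℂ) where
  toFun w := Fin.cons (w 0) (Fin.cons 0 fun i => w i.succ)
  map_add' w w' := by
    funext j
    refine Fin.cases ?_ (fun j => Fin.cases ?_ (fun j => ?_) j) j <;> simp
  map_smul' c w := by
    funext j
    refine Fin.cases ?_ (fun j => Fin.cases ?_ (fun j => ?_) j) j <;> simp

theorem emb_zero {n : ℕ} (w : Fin (n + 1) → ℂ) : emb w 0 = w 0 := rfl

theorem emb_one {n : ℕ} (w : Fin (n + 1) → ℂ) : emb w 1 = 0 := rfl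

theorem emb_succ {n : ℕ} (w : Fin (n + 1) → ℂ) (i : Fin n) : emb w i.succ.succ = w i.succ := rfl

/-- The pairing with a point. -/
noncomputable def pr {m : ℕ} (A : Fin m → ℂ) : (Fin m → ℂ) →ₗ[ℂ] ℂ :=
  ∑ j, A j • LinearMap.proj j

theorem pr_apply {m : ℕ} (A w : Fin m → ℂ) : pr A w = ∑ j, w j * A j := by
  simp [pr, mul_comm]

theorem cub_lower {n s : ℕ} (h : RankLE (n + 2) 3 s (cub n)) : 2 * n + 3 ≤ s := by
  classical
  obtain ⟨c, l, hl, h⟩ := h
  choose A hA using fun i => exists_lin (l i) (hl i)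
  have hE : ∀ w w' w'' : Fin (n + 2) → ℂ, Dw w'' (Dw w' (Dw w (cub n))) =
      C (6 * ∑ i, c i * (pr (A i) w * pr (A i) w' * pr (A i) w'')) := by
    intro w w' w''
    rw [h, map_sum, map_sum, map_sum, Finset.mul_sum, map_sum]
    refine Finset.sum_congr rfl fun i _ => ?_
    rw [hA, Dw_three]
    simp only [pr_apply]
  let x : Fin (n + 2) → ℂ := Pi.single 1 1
  have hx1 : x 1 = 1 := by simp [x]
  have hx : ∀ i, pr (A i) x = A i 1 := by
    intro i
    rw [pr_apply, Finset.sum_eq_single 1]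
    · rw [hx1, one_mul]
    · intro j _ hj
      simp [x, hj]
    · simp
  let Z : Fin (n + 1) → ℂ := Pi.single 0 1
  have hZ0 : Z 0 = 1 := by simp [Z]
  have hZs : ∀ i : Fin n, Z i.succ = 0 := fun i => by simp [Z]
  have six : (6 : ℂ) ≠ 0 := by norm_num
  have H1 : ∀ w w' w'' : Fin (n + 1) → ℂ, ∑ i, c i * ((pr (A i) ∘ₗ emb) w *
      (pr (A i) ∘ₗ emb) w' * (pr (A i) ∘ₗ emb) w'') = 0 := by
    intro w w' w''
    have h5 := hE (emb w) (emb w') (emb w'')
    rw [D3 _ _ _ (emb_one _) (emb_one _), emb_one, mul_zero] at h5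
    exact (mul_eq_zero.1 (C_injective _ _ h5).symm).resolve_left six
  have H2 : ∀ w w' : Fin (n + 1) → ℂ, ∑ i, c i * ((pr (A i) ∘ₗ emb) w *
      (pr (A i) ∘ₗ emb) w' * A i 1) = (∑ i : Fin n, w i.succ * w' i.succ +
        (∑ i : Fin n, w i.succ) * ∑ i : Fin n, w' i.succ) / 3 := by
    intro w w'
    have h5 := hE (emb w) (emb w') x
    rw [D3 _ _ _ (emb_one _) (emb_one _), hx1, mul_one] at h5
    have h6 := C_injective _ _ h5
    simp only [hx, emb_succ] at h6
    simp only [LinearMap.comp_apply]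
    linear_combination (-1 / 6 : ℂ) * h6
  have H3 : ∑ i, c i * ((pr (A i) ∘ₗ emb) Z * A i 1 ^ 2) = 1 / 3 := by
    have h5 := hE (emb Z) x x
    rw [D3' _ _ _ (emb_one _) (fun i => by rw [emb_succ, hZs]), hx1, emb_zero, hZ0] at h5
    have h6 := C_injective _ _ h5
    simp only [hx] at h6
    simp only [LinearMap.comp_apply]
    have h7 : ∑ i, c i * (pr (A i) (emb Z) * A i 1 ^ 2) =
        ∑ i, c i * (pr (A i) (emb Z) * A i 1 * A i 1) :=
      Finset.sum_congr rfl fun i _ => by ring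
    rw [h7]
    linear_combination (-1 / 6 : ℂ) * h6
  have h9 := cubic_lower n (Fin (n + 1) → ℂ) (by simp) Finset.univ c (fun i => A i 1)
    (fun i => pr (A i) ∘ₗ emb) Z H1 ?_ ?_ ?_
  · simpa using h9
  · intro w
    rw [H2]
    simp [hZs]
  · intro w hw
    have h5 : ∀ j : Fin n, w j.succ + ∑ i : Fin n, w i.succ = 0 := by
      intro j
      have h6 := hw (Pi.single j.succ 1)
      rw [H2] at h6
      have h7 : ∑ i : Fin n, w i.succ * (Pi.single j.succ 1 : Fin (n + 1) → ℂ) i.succ =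
          w j.succ := by
        rw [Finset.sum_eq_single j]
        · simp
        · intro i _ hi
          rw [Pi.single_eq_of_ne (by simpa using hi), mul_zero]
        · simp
      have h8 : ∑ i : Fin n, (Pi.single j.succ 1 : Fin (n + 1) → ℂ) i.succ = 1 := by
        rw [Finset.sum_eq_single j]
        · simp
        · intro i _ hi
          rw [Pi.single_eq_of_ne (by simpa using hi)]
        · simp
      rw [h7, h8, mul_one] at h6
      linear_combination 3 * h6
    have h6 : ∑ i : Fin n, w i.succ = 0 := by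
      have h7 : ∑ j : Fin n, (w j.succ + ∑ i : Fin n, w i.succ) = 0 :=
        Finset.sum_eq_zero fun j _ => h5 j
      rw [Finset.sum_add_distrib, Finset.sum_const, Finset.card_univ, Fintype.card_fin,
        nsmul_eq_mul] at h7
      have h8 : ((n : ℂ) + 1) * ∑ i : Fin n, w i.succ = 0 := by linear_combination h7
      exact (mul_eq_zero.1 h8).resolve_left (Nat.cast_add_one_ne_zero n)
    refine ⟨w 0, ?_⟩
    funext j
    refine Fin.cases ?_ (fun j => ?_) j
    · simp [hZ0]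
    · have := h5 j
      rw [h6, add_zero] at this
      simp [this, hZs]
  · rw [H3]
    norm_num

end Pool.Agent.R840.SR
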