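import Pool.Agent.R840.SR.E

set_option autoImplicit false

namespace Pool.Agent.R840.SR

open MvPolynomial Filter Topology

/-- The forms approximating `cub n`. -/
noncomputable def approxC (n : ℕ) (ε : ℂ) : MvPolynomial (Fin (n + 2)) ℂ :=
  ∑ i : Fin n, C (1 / (3 * ε ^ 2)) * (X 1 + C ε * X i.succ.succ) ^ 3 +
    C (1 / (3 * ε ^ 2)) * (X 1 - C ε * ∑ i : Fin n, X i.succ.succ + C (ε ^ 2) * X 0) ^ 3 +
    C (-(n + 1) / (3 * ε ^ 2)) * X 1 ^ 3

theorem hom_C_mul {m : ℕ} (c : ℂ) (p : MvPolynomial (Fin m) ℂ) (hp : p.IsHomogeneous 1) :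
    (C c * p).IsHomogeneous 1 := by
  simpa using (isHomogeneous_C (Fin m) c).mul hp

theorem approxC_rank (n : ℕ) (ε : ℂ) : RankLE (n + 2) 3 (n + 2) (approxC n ε) := by
  refine RankLE.add (a := n + 1) (b := 1) (RankLE.add (a := n) (b := 1)
    ⟨fun _ => 1 / (3 * ε ^ 2), fun i => X 1 + C ε * X i.succ.succ, fun i => ?_, rfl⟩
    ⟨fun _ => 1 / (3 * ε ^ 2), fun _ => X 1 - C ε * ∑ i : Fin n, X i.succ.succ + C (ε ^ 2) * X 0,
      fun _ => ?_, by simp⟩) ⟨fun _ => -(n + 1) / (3 * ε ^ 2), fun _ => X 1, fun _ => ?_, by simp⟩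
  · exact (isHomogeneous_X _ _).add (hom_C_mul _ _ (isHomogeneous_X _ _))
  · exact ((isHomogeneous_X _ _).sub (hom_C_mul _ _
      (IsHomogeneous.sum _ _ _ fun i _ => isHomogeneous_X _ _))).add
      (hom_C_mul _ _ (isHomogeneous_X _ _))
  · exact isHomogeneous_X _ _

/-- The error terms. -/
noncomputable def err (n : ℕ) : Fin 4 → MvPolynomial (Fin (n + 2)) ℂ :=
  let σ : MvPolynomial (Fin (n + 2)) ℂ := ∑ i : Fin n, X i.succ.succ
  ![-2 * X 1 * σ * X 0 + C (1 / 3) * (∑ i : Fin n, X i.succ.succ ^ 3 - σ ^ 3),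
    X 1 * X 0 ^ 2 + σ ^ 2 * X 0, - σ * X 0 ^ 2, C (1 / 3) * X 0 ^ 3]

theorem approxC_eq (n : ℕ) (ε : ℂ) (hε : ε ≠ 0) : approxC n ε =
    cub n + (C ε * err n 0 + C (ε ^ 2) * err n 1 + C (ε ^ 3) * err n 2 + C (ε ^ 4) * err n 3) := by
  set σ : MvPolynomial (Fin (n + 2)) ℂ := ∑ i : Fin n, X i.succ.succ with hσ
  set q2 : MvPolynomial (Fin (n + 2)) ℂ := ∑ i : Fin n, X i.succ.succ ^ 2 with hq2
  set q3 : MvPolynomial (Fin (n + 2)) ℂ := ∑ i : Fin n, X i.succ.succ ^ 3 with hq3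
  have e0 : err n 0 = -2 * X 1 * σ * X 0 + C (1 / 3) * (q3 - σ ^ 3) := rfl
  have e1 : err n 1 = X 1 * X 0 ^ 2 + σ ^ 2 * X 0 := rfl
  have e2 : err n 2 = - σ * X 0 ^ 2 := rfl
  have e3 : err n 3 = C (1 / 3) * X 0 ^ 3 := rfl
  have ec : cub n = X 1 ^ 2 * X 0 + X 1 * (q2 + σ ^ 2) := rfl
  have hS : ∑ i : Fin n, (X 1 + C ε * X i.succ.succ) ^ 3 =
      C (n : ℂ) * X 1 ^ 3 + 3 * X 1 ^ 2 * C ε * σ + 3 * X 1 * C ε ^ 2 * q2 + C ε ^ 3 * q3 := by
    have h1 : (C (n : ℂ) : MvPolynomial (Fin (n + 2)) ℂ) * X 1 ^ 3 = ∑ _i : Fin n, X 1 ^ 3 := by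
      simp
    rw [h1, hσ, hq2, hq3, Finset.mul_sum, Finset.mul_sum, Finset.mul_sum,
      ← Finset.sum_add_distrib, ← Finset.sum_add_distrib, ← Finset.sum_add_distrib]
    exact Finset.sum_congr rfl fun i _ => by ring
  have h3 : (C (1 / 3) : MvPolynomial (Fin (n + 2)) ℂ) * 3 = 1 := by
    have : (3 : MvPolynomial (Fin (n + 2)) ℂ) = C 3 := (map_ofNat C 3).symm
    rw [this, ← C_mul]
    norm_num
  have hmain : ∑ i : Fin n, (X 1 + C ε * X i.succ.succ) ^ 3 +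
      (X 1 - C ε * σ + C ε ^ 2 * X 0) ^ 3 - C ((n : ℂ) + 1) * X 1 ^ 3 =
      (3 * C ε ^ 2) * (cub n + (C ε * err n 0 + C ε ^ 2 * err n 1 + C ε ^ 3 * err n 2 +
        C ε ^ 4 * err n 3)) := by
    rw [hS, e0, e1, e2, e3, ec, map_add, map_one]
    linear_combination (-(C ε ^ 3 * (q3 - σ ^ 3)) - C ε ^ 6 * X 0 ^ 3) * h3
  have hinv : (C (1 / (3 * ε ^ 2)) : MvPolynomial (Fin (n + 2)) ℂ) * (3 * C ε ^ 2) = 1 := by
    have : (3 * C ε ^ 2 : MvPolynomial (Fin (n + 2)) ℂ) = C (3 * ε ^ 2) := by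
      rw [C_mul, C_pow, map_ofNat]
    rw [this, ← C_mul, one_div, inv_mul_cancel₀ (mul_ne_zero (by norm_num) (pow_ne_zero 2 hε)),
      C_1]
  have hneg : (C (-(n + 1) / (3 * ε ^ 2)) : MvPolynomial (Fin (n + 2)) ℂ) =
      - (C (1 / (3 * ε ^ 2)) * C ((n : ℂ) + 1)) := by
    rw [← C_mul, ← C_neg]
    congr 1
    ring
  unfold approxC
  rw [← Finset.mul_sum, hneg]
  simp only [C_pow]
  calc _ = C (1 / (3 * ε ^ 2)) * (∑ i : Fin n, (X 1 + C ε * X i.succ.succ) ^ 3 +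
      (X 1 - C ε * σ + C ε ^ 2 * X 0) ^ 3 - C ((n : ℂ) + 1) * X 1 ^ 3) := by ring
    _ = (C (1 / (3 * ε ^ 2)) * (3 * C ε ^ 2)) * (cub n + (C ε * err n 0 + C ε ^ 2 * err n 1 +
        C ε ^ 3 * err n 2 + C ε ^ 4 * err n 3)) := by rw [hmain]; ring
    _ = _ := by rw [hinv, one_mul]

theorem approxC_tendsto (n : ℕ) (s : Fin (n + 2) →₀ ℕ) :
    Tendsto (fun N : ℕ => coeff s (approxC n (1 / ((N : ℂ) + 1)))) atTop
      (𝓝 (coeff s (cub n))) := by
  let g : ℂ → ℂ := fun ε => coeff s (cub n) + (ε * coeff s (err n 0) + ε ^ 2 * coeff s (err n 1) +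
    ε ^ 3 * coeff s (err n 2) + ε ^ 4 * coeff s (err n 3))
  have hg : Continuous g := by fun_prop
  have hg0 : g 0 = coeff s (cub n) := by simp [g]
  have h1 : Tendsto (fun N : ℕ => g (1 / ((N : ℂ) + 1))) atTop (𝓝 (g 0)) :=
    (hg.tendsto 0).comp (tendsto_one_div_add_atTop_nhds_zero_nat (𝕜 := ℂ))
  rw [← hg0]
  refine h1.congr fun N => ?_
  have : (1 / ((N : ℂ) + 1)) ≠ 0 := one_div_ne_zero (Nat.cast_add_one_ne_zero N)
  rw [approxC_eq n _ this]
  simp only [g, coeff_add, coeff_C_mul]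

theorem cub_hom (n : ℕ) : (cub n).IsHomogeneous 3 := by
  unfold cub
  refine IsHomogeneous.add ?_ ?_
  · exact (isHomogeneous_X_pow (R := ℂ) (1 : Fin (n + 2)) 2).mul (isHomogeneous_X ℂ 0)
  · refine (isHomogeneous_X ℂ (1 : Fin (n + 2))).mul (n := 2) (IsHomogeneous.add ?_ ?_)
    · exact IsHomogeneous.sum _ _ _ fun i _ => isHomogeneous_X_pow _ _
    · simpa using (IsHomogeneous.sum (Finset.univ : Finset (Fin n))
        (fun i => (X i.succ.succ : MvPolynomial (Fin (n + 2)) ℂ)) 1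
          fun i _ => isHomogeneous_X _ _).pow 2

/-- The property of the theorem. -/
def NC (m k r : ℕ) : Prop :=
  ∃ F : MvPolynomial (Fin m) ℂ, F.IsHomogeneous k ∧ ¬ RankLE m k r F ∧
    ∃ G : ℕ → MvPolynomial (Fin m) ℂ, (∀ N, RankLE m k r (G N)) ∧
      ∀ s, Tendsto (fun N => coeff s (G N)) atTop (𝓝 (coeff s F))

theorem cub_NC {n r : ℕ} (h1 : n + 2 ≤ r) (h2 : r < 2 * n + 3) : NC (n + 2) 3 r := by
  refine ⟨cub n, cub_hom n, fun h => ?_, fun N => approxC n (1 / ((N : ℂ) + 1)),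
    fun N => (approxC_rank n _).mono h1, approxC_tendsto n⟩
  have := cub_lower h
  omega

/-- Adding variables. -/
theorem NC.lift {m' m k r : ℕ} (hm : m' ≤ m) (h : NC m' k r) : NC m k r := by
  classical
  obtain ⟨F, hF, hF2, G, hG, hlim⟩ := h
  have hinj : Function.Injective (Fin.castLE hm) := Fin.castLE_injective hm
  refine ⟨rename (Fin.castLE hm) F, hF.rename_isHomogeneous, ?_,
    fun N => rename (Fin.castLE hm) (G N), ?_, ?_⟩
  · rintro ⟨c, l, hl, h⟩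
    apply hF2
    let ρ : MvPolynomial (Fin m) ℂ →ₐ[ℂ] MvPolynomial (Fin m') ℂ :=
      aeval fun j => if h : (j : ℕ) < m' then X ⟨j, h⟩ else 0
    have hρ : ρ (rename (Fin.castLE hm) F) = F := by
      rw [aeval_rename]
      have : (fun j : Fin m => if h : (j : ℕ) < m' then (X ⟨j, h⟩ : MvPolynomial (Fin m') ℂ)
          else 0) ∘ Fin.castLE hm = X := by
        funext j
        simp
      rw [this, aeval_X_left_apply]
    refine ⟨c, fun i => ρ (l i), fun i => ?_, ?_⟩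
    · obtain ⟨A, hA⟩ := exists_lin (l i) (hl i)
      simp only [hA, lin, map_sum, map_smul]
      refine IsHomogeneous.sum _ _ _ fun j _ => ?_
      rw [smul_eq_C_mul]
      refine hom_C_mul _ _ ?_
      simp only [ρ, aeval_X]
      split_ifs
      · exact isHomogeneous_X _ _
      · exact isHomogeneous_zero _ _ _
    · rw [← hρ, h, map_sum]
      refine Finset.sum_congr rfl fun i _ => ?_
      rw [map_mul, map_pow]
      congr 1
      simp [ρ]
  · intro N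
    obtain ⟨c, l, hl, h⟩ := hG N
    refine ⟨c, fun i => rename (Fin.castLE hm) (l i), fun i => (hl i).rename_isHomogeneous, ?_⟩
    simp only [h, map_sum]
    exact Finset.sum_congr rfl fun i _ => by rw [map_mul, map_pow, rename_C]
  · intro s
    by_cases hs : ∃ u : Fin m' →₀ ℕ, u.mapDomain (Fin.castLE hm) = s
    · obtain ⟨u, rfl⟩ := hs
      simp only [coeff_rename_mapDomain _ hinj]
      exact hlim u
    · have h0 : ∀ P : MvPolynomial (Fin m') ℂ, coeff s (rename (Fin.castLE hm) P) = 0 := by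
        intro P
        exact coeff_rename_eq_zero _ _ _ fun u hu => absurd ⟨u, hu⟩ hs
      simp only [h0]
      exact tendsto_const_nhds

theorem cubic_range {m r : ℕ} (h2 : 2 ≤ r) (hr : r + 2 ≤ 2 * m) : NC m 3 r := by
  rcases le_total r m with h | h
  · obtain ⟨n, rfl⟩ : ∃ n, r = n + 2 := ⟨r - 2, by omega⟩
    exact (cub_NC (n := n) le_rfl (by omega)).lift h
  · obtain ⟨n, rfl⟩ : ∃ n, m = n + 2 := ⟨m - 2, by omega⟩
    exact cub_NC h (by omega)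

end Pool.Agent.R840.SR
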