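import Pool.Agent.R840.SR.F

set_option autoImplicit false

namespace Pool.Agent.R840.SR

/-- The exponents of degree `j`. -/
def lev (n j : ℕ) : Finset (Fin n →₀ ℕ) := Finset.finsuppAntidiag Finset.univ j

theorem mem_lev {n j : ℕ} (α : Fin n →₀ ℕ) : α ∈ lev n j ↔ ∑ i, α i = j := by
  simp [lev, Finset.mem_finsuppAntidiag]

theorem card_lev (n j : ℕ) : (lev (n + 1) j).card = (n + j).choose j := by
  rw [lev, Finset.card_finsuppAntidiag_nat_eq_choose, Finset.card_univ, Fintype.card_fin]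
  congr 1
  omega

/-- The exponents of degree less than `q`. -/
def ball (n q : ℕ) : Finset (Fin n →₀ ℕ) := (Finset.range q).biUnion fun j => lev n j

theorem mem_ball {n q : ℕ} (α : Fin n →₀ ℕ) : α ∈ ball n q ↔ ∑ i, α i < q := by
  simp [ball, mem_lev]

theorem sum_ball (n q : ℕ) (g : ℕ → ℕ) :
    ∑ α ∈ ball (n + 1) q, g (∑ i, α i) = ∑ j ∈ Finset.range q, g j * (n + j).choose j := by
  rw [ball, Finset.sum_biUnion]
  · refine Finset.sum_congr rfl fun j _ => ?_
    rw [← card_lev, Finset.sum_congr rfl (g := fun _ => g j), Finset.sum_const, smul_eq_mul,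
      mul_comm]
    intro α hα
    rw [(mem_lev α).1 hα]
  · intro a _ b _ hab
    rw [Function.onFun, Finset.disjoint_left]
    intro α h1 h2
    rw [mem_lev] at h1 h2
    exact hab (h1.symm.trans h2)

theorem hs1 (n q : ℕ) : ∑ j ∈ Finset.range q, (n + j).choose j = (n + q).choose (n + 1) := by
  induction q with
  | zero => simp
  | succ q ih =>
    rw [Finset.sum_range_succ, ih, ← Nat.choose_symm_add, ← add_assoc,
      Nat.choose_succ_succ' (n + q) n]
    omega

theorem hs2 (n q : ℕ) :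
    ∑ j ∈ Finset.range q, (q - j) * (n + j).choose j = (n + 1 + q).choose (n + 2) := by
  induction q with
  | zero => simp
  | succ q ih =>
    have h1 : ∑ j ∈ Finset.range (q + 1), (q + 1 - j) * (n + j).choose j =
        ∑ j ∈ Finset.range (q + 1), (q - j) * (n + j).choose j +
          ∑ j ∈ Finset.range (q + 1), (n + j).choose j := by
      rw [← Finset.sum_add_distrib]
      refine Finset.sum_congr rfl fun j hj => ?_
      have : q + 1 - j = (q - j) + 1 := by
        have := Finset.mem_range.1 hj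
        omega
      rw [this]
      ring
    rw [h1, hs1, Finset.sum_range_succ, ih, Nat.sub_self, zero_mul, add_zero,
      show n + 1 + (q + 1) = (n + 1 + q) + 1 by ring, Nat.choose_succ_succ' (n + 1 + q) (n + 1),
      show n + (q + 1) = n + 1 + q by ring, show n + 1 + 1 = n + 2 from rfl]
    omega

/-- The range for `k ≥ 4`. -/
theorem range_NC {n d r N t : ℕ} (hd : 3 ≤ d) (hN : 2 * N ≤ d + 1) (hN1 : 1 ≤ N)
    (ht : t = (lev (n + 1) N).card) (h2 : 2 ≤ r)
    (hr : r < ∑ α ∈ ball (n + 1) N, (d + 1 - 2 * ∑ i, α i) + t) : NC (n + 3) (d + 1) r := by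
  classical
  have h0 : (0 : Fin (n + 1) →₀ ℕ) ∈ ball (n + 1) N := by
    rw [mem_ball]
    simp only [Finsupp.coe_zero, Pi.zero_apply, Finset.sum_const_zero]
    omega
  have hf : ∀ Λ ⊆ ball (n + 1) N, (0 : Fin (n + 1) →₀ ℕ) ∈ Λ →
      2 * Λ.card + (d - 1) ≤ ∑ α ∈ Λ, (d + 1 - 2 * ∑ i, α i) := by
    intro Λ hΛ h0Λ
    rw [← Finset.add_sum_erase Λ _ h0Λ]
    have h3 : 2 * (Λ.erase 0).card ≤ ∑ α ∈ Λ.erase 0, (d + 1 - 2 * ∑ i, α i) := by
      rw [mul_comm, ← smul_eq_mul, ← Finset.sum_const]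
      refine Finset.sum_le_sum fun α hα => ?_
      have := (mem_ball α).1 (hΛ (Finset.mem_of_mem_erase hα))
      omega
    rw [Finset.card_erase_of_mem h0Λ] at h3
    have h4 : 1 ≤ Λ.card := Finset.card_pos.2 ⟨_, h0Λ⟩
    simp only [Finsupp.coe_zero, Pi.zero_apply, Finset.sum_const_zero, mul_zero]
    omega
  rcases le_or_gt (2 * (ball (n + 1) N).card) r with h | h
  · -- all exponents of degree less than `N`, and some of degree `N`
    obtain ⟨Γ, hΓ, hΓc⟩ := Finset.exists_subset_card_eq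
      (show min (r - 2 * (ball (n + 1) N).card) t ≤ (lev (n + 1) N).card by
        rw [← ht]; exact min_le_right _ _)
    have hdisj : Disjoint (ball (n + 1) N) Γ := by
      rw [Finset.disjoint_left]
      intro α h3 h4
      have h5 := (mem_lev α).1 (hΓ h4)
      have h6 := (mem_ball α).1 h3
      omega
    have hcard : (ball (n + 1) N ∪ Γ).card = (ball (n + 1) N).card + Γ.card :=
      Finset.card_union_of_disjoint hdisj
    have h3 := hf _ (Finset.Subset.refl _) h0
    refine main (ball (n + 1) N) (ball (n + 1) N ∪ Γ) Finset.subset_union_left ?_ hN hN1 ?_ ?_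
    · intro α hα
      rcases Finset.mem_union.1 hα with h4 | h4
      · exact ((mem_ball α).1 h4).le
      · exact ((mem_lev α).1 (hΓ h4)).le
    · rw [hcard]
      omega
    · rw [hcard]
      omega
  · obtain ⟨Λ, h3, h4, h5⟩ := Finset.exists_subsuperset_card_eq
      (s := {(0 : Fin (n + 1) →₀ ℕ)}) (t := ball (n + 1) N) (n := r / 2)
      (Finset.singleton_subset_iff.2 h0) (by simp; omega) (by omega)
    have h6 := hf Λ h4 (Finset.singleton_subset_iff.1 h3)
    refine main Λ Λ (Finset.Subset.refl _) ?_ hN hN1 (by omega) (by omega)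
    intro α hα
    exact ((mem_ball α).1 (h4 hα)).le

theorem even_range {m N r : ℕ} (hm : 3 ≤ m) (hN : 2 ≤ N) (h2 : 2 ≤ r)
    (hr : r < 2 * (N + m - 2).choose (m - 1) + (N + m - 3).choose (m - 3)) :
    NC m (2 * N) r := by
  obtain ⟨n, rfl⟩ : ∃ n, m = n + 3 := ⟨m - 3, by omega⟩
  obtain ⟨d, hd⟩ : ∃ d, 2 * N = d + 1 := ⟨2 * N - 1, by omega⟩
  rw [hd]
  refine range_NC (N := N) (by omega) (by omega) (by omega) rfl h2 ?_
  rw [card_lev, sum_ball n N (fun j => d + 1 - 2 * j)]
  have h1 : ∑ j ∈ Finset.range N, (d + 1 - 2 * j) * (n + j).choose j =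
      2 * ∑ j ∈ Finset.range N, (N - j) * (n + j).choose j := by
    rw [Finset.mul_sum]
    refine Finset.sum_congr rfl fun j _ => ?_
    rw [show d + 1 - 2 * j = 2 * (N - j) by omega]
    ring
  rw [h1, hs2, ← Nat.choose_symm_add]
  rw [show N + (n + 3) - 2 = n + 1 + N by omega, show n + 3 - 1 = n + 2 by omega,
    show N + (n + 3) - 3 = n + N by omega, show n + 3 - 3 = n by omega] at hr
  exact hr

theorem odd_range {m N r : ℕ} (hm : 3 ≤ m) (hN : 2 ≤ N) (h2 : 2 ≤ r)
    (hr : r < (N + m - 2).choose (m - 1) + (N + m - 1).choose (m - 1)) :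
    NC m (2 * N + 1) r := by
  obtain ⟨n, rfl⟩ : ∃ n, m = n + 3 := ⟨m - 3, by omega⟩
  refine range_NC (N := N) (by omega) (by omega) (by omega) rfl h2 ?_
  rw [card_lev, sum_ball n N (fun j => 2 * N + 1 - 2 * j)]
  have h1 : ∑ j ∈ Finset.range N, (2 * N + 1 - 2 * j) * (n + j).choose j =
      2 * ∑ j ∈ Finset.range N, (N - j) * (n + j).choose j +
        ∑ j ∈ Finset.range N, (n + j).choose j := by
    rw [Finset.mul_sum, ← Finset.sum_add_distrib]
    refine Finset.sum_congr rfl fun j hj => ?_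
    have := Finset.mem_range.1 hj
    rw [show 2 * N + 1 - 2 * j = 2 * (N - j) + 1 by omega]
    ring
  rw [h1, hs2, add_assoc, ← Finset.sum_range_succ, hs1]
  rw [show N + (n + 3) - 2 = n + 1 + N by omega, show n + 3 - 1 = n + 2 by omega,
    show N + (n + 3) - 1 = n + 1 + N + 1 by omega, Nat.choose_succ_succ' (n + 1 + N) (n + 1)] at hr
  rw [show n + 1 + 1 = n + 2 from rfl] at hr
  rw [show n + (N + 1) = n + 1 + N by omega]
  omega

end Pool.Agent.R840.SR
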